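import Mathlib

/-!
Linear algebra for graph curves: maps `L → ⋀² W` with `v ∧ ω(v) = 0`, and gluing of functionals.
-/

set_option autoImplicit false

namespace Pool.Agent.R862.GC

universe u

variable {k : Type u} [Field k] {N : ℕ}

/-- `p ∧ x = 0` implies that `x` is a multiple of `p`. -/
theorem wedge_zero {p x : Fin N → k} (hp : p ≠ 0) (h : ∀ a b, p a * x b - p b * x a = 0) :
    ∃ c : k, x = c • p := by
  obtain ⟨i, hi⟩ := Function.ne_iff.1 hp
  have hi' : p i ≠ 0 := hi
  refine ⟨x i / p i, ?_⟩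
  funext b
  have := h i b
  rw [Pi.smul_apply, smul_eq_mul]
  field_simp
  linear_combination this

/-- A non-vanishing minor of two independent vectors. -/
theorem exists_minor {e f : Fin N → k} (h : LinearIndependent k ![e, f]) :
    ∃ i j, e i * f j - e j * f i ≠ 0 := by
  by_contra hcon
  push Not at hcon
  have he : e ≠ 0 := h.ne_zero 0
  obtain ⟨c, hc⟩ := wedge_zero he hcon
  rw [LinearIndependent.pair_iff] at h
  have := (h c (-1) (by rw [hc]; simp)).2
  simp at this

/-- If `v ∧ w = 0` for all `v` in a plane then `w = 0`. -/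
theorem wedge_plane {e f w : Fin N → k} (h : LinearIndependent k ![e, f])
    (he : ∀ a b, e a * w b - e b * w a = 0) (hf : ∀ a b, f a * w b - f b * w a = 0) : w = 0 := by
  obtain ⟨c, hc⟩ := wedge_zero (h.ne_zero 0) he
  obtain ⟨d, hd⟩ := wedge_zero (h.ne_zero 1) hf
  rw [LinearIndependent.pair_iff] at h
  have h1 := h c (-d) (by
    have h2 : c • e = d • f := by
      have h3 : w = d • f := hd
      rw [← h3]
      exact hc.symm
    rw [h2, neg_smul, add_neg_cancel])
  rw [hc, h1.1, zero_smul]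

/-- `v ∧ ω = 0` implies `ω = v ∧ a`. -/
theorem decompose {e : Fin N → k} (he : e ≠ 0) {ω : Fin N → Fin N → k}
    (h : ∀ a b c, e a * ω b c - e b * ω a c + e c * ω a b = 0) :
    ∃ x : Fin N → k, ∀ b c, ω b c = e b * x c - e c * x b := by
  obtain ⟨i, hi⟩ := Function.ne_iff.1 he
  have hi' : e i ≠ 0 := hi
  refine ⟨fun b => ω i b / e i, fun b c => ?_⟩
  have := h i b c
  field_simp
  linear_combination this

/-- A linear map `ω` from a plane `⟨e, f⟩` to alternating matrices with `v ∧ ω(v) = 0` for all `v`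
in the plane is of the form `v ↦ v ∧ w`. -/
theorem exists_vector {e f : Fin N → k} (h : LinearIndependent k ![e, f])
    {ωe ωf : Fin N → Fin N → k}
    (h1 : ∀ a b c, e a * ωe b c - e b * ωe a c + e c * ωe a b = 0)
    (h2 : ∀ a b c, f a * ωf b c - f b * ωf a c + f c * ωf a b = 0)
    (h3 : ∀ a b c, (e a + f a) * (ωe b c + ωf b c) - (e b + f b) * (ωe a c + ωf a c) +
      (e c + f c) * (ωe a b + ωf a b) = 0) :
    ∃ w : Fin N → k, (∀ a b, ωe a b = e a * w b - e b * w a) ∧
      ∀ a b, ωf a b = f a * w b - f b * w a := by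
  obtain ⟨x, hx⟩ := decompose (h.ne_zero 0) h1
  obtain ⟨y, hy⟩ := decompose (h.ne_zero 1) h2
  simp only [Matrix.cons_val_zero, Matrix.cons_val_one] at hx hy
  obtain ⟨i, j, hij⟩ := exists_minor h
  set Δ := e i * f j - e j * f i with hΔ
  set g : Fin N → k := fun a => y a - x a with hg
  have key : ∀ c, Δ * g c = f c * (e i * g j - e j * g i) - e c * (f i * g j - f j * g i) := by
    intro c
    have q1 := h1 i j c
    have q2 := h2 i j c
    have q3 := h3 i j c
    rw [hx, hx, hx] at q1 q3
    rw [hy, hy, hy] at q2 q3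
    rw [hΔ]
    simp only [hg]
    linear_combination q3 - q1 - q2
  refine ⟨fun a => x a - (f i * g j - f j * g i) / Δ * e a, fun a b => ?_, fun a b => ?_⟩
  · rw [hx]
    ring
  · rw [hy]
    have ka := key a
    have kb := key b
    have ea : y a = x a + (e i * g j - e j * g i) / Δ * f a - (f i * g j - f j * g i) / Δ * e a := by
      have : y a = x a + g a := by simp only [hg]; ring
      rw [this]
      field_simp
      linear_combination ka
    have eb : y b = x b + (e i * g j - e j * g i) / Δ * f b - (f i * g j - f j * g i) / Δ * e b := by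
      have : y b = x b + g b := by simp only [hg]; ring
      rw [this]
      field_simp
      linear_combination kb
    rw [ea, eb]
    ring

/-- Functionals agreeing on the intersection have a common extension. -/
theorem glue {W : Type u} [AddCommGroup W] [Module k W] (A B : Submodule k W) (φ ψ : W →ₗ[k] k)
    (h : ∀ x ∈ A, x ∈ B → φ x = ψ x) :
    ∃ χ : W →ₗ[k] k, (∀ x ∈ A, χ x = φ x) ∧ ∀ x ∈ B, χ x = ψ x := by
  let f : W →ₗ.[k] k := ⟨A, φ.domRestrict A⟩
  let g : W →ₗ.[k] k := ⟨B, ψ.domRestrict B⟩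
  have hfg : ∀ (x : f.domain) (y : g.domain), (x : W) = y → f x = g y := by
    intro x y hxy
    change φ x = ψ y
    rw [← hxy]
    exact h x x.2 (hxy ▸ y.2)
  obtain ⟨χ, hχ⟩ := LinearMap.exists_extend (f.sup g hfg).toFun
  refine ⟨χ, fun x hx => ?_, fun x hx => ?_⟩
  · have hx' : x ∈ (f.sup g hfg).domain := (LinearPMap.domain_sup f g hfg) ▸
      Submodule.mem_sup_left hx
    have e1 : χ x = (f.sup g hfg) ⟨x, hx'⟩ := LinearMap.congr_fun hχ ⟨x, hx'⟩
    rw [e1]
    have e2 := LinearPMap.sup_apply hfg ⟨x, hx⟩ 0 ⟨x, hx'⟩ (by simp)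
    refine e2.trans ?_
    rw [LinearPMap.map_zero g, add_zero]
    rfl
  · have hx' : x ∈ (f.sup g hfg).domain := (LinearPMap.domain_sup f g hfg) ▸
      Submodule.mem_sup_right hx
    have e1 : χ x = (f.sup g hfg) ⟨x, hx'⟩ := LinearMap.congr_fun hχ ⟨x, hx'⟩
    rw [e1]
    have e2 := LinearPMap.sup_apply hfg 0 ⟨x, hx⟩ ⟨x, hx'⟩ (by simp)
    refine e2.trans ?_
    rw [LinearPMap.map_zero f, zero_add]
    rfl

end Pool.Agent.R862.GC
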