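import Mathlib
import Pool.Agent.R862.GC.LinAlg

/-!
Dimension counts for the span of the lines of a graph curve.
-/

set_option autoImplicit false

namespace Pool.Agent.R862.GC

open Classical in
/-- the number of neighbours of `x` in `T` -/
noncomputable def degIn {V : Type} (G : SimpleGraph V) (T : Finset V) (x : V) : ℕ :=
  (T.filter (fun y => G.Adj x y)).card

/-- twice the number of edges in `T` -/
noncomputable def m2 {V : Type} (G : SimpleGraph V) (T : Finset V) : ℕ := ∑ x ∈ T, degIn G T x

universe u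

/-- A configuration of lines: distinct planes `L v` of a vector space, two adjacent ones
with a common point, no three with a common point. -/
structure Lines {V : Type} (G : SimpleGraph V) {k W : Type u} [Field k] [AddCommGroup W]
    [Module k W] (L : V → Submodule k W) : Prop where
  dim : ∀ v, Module.finrank k (L v) = 2
  inj : Function.Injective L
  meet : ∀ v w, G.Adj v w → ∃ p, p ≠ 0 ∧ p ∈ L v ∧ p ∈ L w
  triple : ∀ x y z, x ≠ y → x ≠ z → y ≠ z → ∀ p, p ∈ L x → p ∈ L y → p ∈ L z → p = 0

section Count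

variable {V : Type} {G : SimpleGraph V}

theorem degIn_erase_self [DecidableEq V] (T : Finset V) (x : V) :
    degIn G (T.erase x) x = degIn G T x := by
  classical
  unfold degIn
  congr 1
  ext y
  simp only [Finset.mem_filter, Finset.mem_erase]
  constructor
  · rintro ⟨⟨_, h⟩, h'⟩
    exact ⟨h, h'⟩
  · rintro ⟨h, h'⟩
    exact ⟨⟨h'.ne', h⟩, h'⟩

theorem degIn_union [DecidableEq V] {A B : Finset V} (h : Disjoint A B) (x : V) :
    degIn G (A ∪ B) x = degIn G A x + degIn G B x := by
  classical
  unfold degIn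
  rw [Finset.filter_union, Finset.card_union_of_disjoint]
  exact Finset.disjoint_filter_filter h

theorem sum_degIn_comm [DecidableEq V] (A B : Finset V) :
    ∑ x ∈ A, degIn G B x = ∑ y ∈ B, degIn G A y := by
  classical
  unfold degIn
  simp only [Finset.card_filter]
  rw [Finset.sum_comm]
  refine Finset.sum_congr rfl fun y _ => Finset.sum_congr rfl fun x _ => ?_
  rw [G.adj_comm]

theorem m2_union [DecidableEq V] {A B : Finset V} (h : Disjoint A B) :
    m2 G (A ∪ B) = m2 G A + m2 G B + 2 * ∑ x ∈ A, degIn G B x := by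
  unfold m2
  rw [Finset.sum_union h]
  simp only [degIn_union h, Finset.sum_add_distrib]
  rw [sum_degIn_comm B A]
  ring

theorem m2_erase [DecidableEq V] {T : Finset V} {x : V} (hx : x ∈ T) :
    m2 G T = m2 G (T.erase x) + 2 * degIn G T x := by
  have h1 : Disjoint {x} (T.erase x) := by simp
  have h2 : {x} ∪ T.erase x = T := by
    rw [← Finset.insert_eq, Finset.insert_erase hx]
  have h3 := m2_union (G := G) h1
  rw [h2] at h3
  rw [h3]
  have h4 : m2 G {x} = 0 := by
    classical
    unfold m2 degIn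
    rw [Finset.sum_singleton, Finset.card_eq_zero, Finset.filter_eq_empty_iff]
    intro y hy
    rw [Finset.mem_singleton] at hy
    subst hy
    exact G.irrefl
  rw [h4, Finset.sum_singleton, degIn_erase_self]
  ring

end Count

section Span

variable {V : Type} [DecidableEq V] {G : SimpleGraph V} {k W : Type u} [Field k] [AddCommGroup W]
  [Module k W] [FiniteDimensional k W] {L : V → Submodule k W}

/-- the span of the lines in `T` -/
def WT (L : V → Submodule k W) (T : Finset V) : Submodule k W := ⨆ v ∈ T, L v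

theorem le_WT {T : Finset V} {v : V} (hv : v ∈ T) : L v ≤ WT L T := le_biSup L hv

theorem WT_mono {S T : Finset V} (h : S ⊆ T) : WT L S ≤ WT L T := by
  refine iSup₂_le fun v hv => le_WT (h hv)

theorem WT_union (A B : Finset V) : WT L (A ∪ B) = WT L A ⊔ WT L B := by
  unfold WT
  exact Finset.iSup_union

theorem WT_erase {T : Finset V} {x : V} (hx : x ∈ T) : WT L T = WT L (T.erase x) ⊔ L x := by
  conv_lhs => rw [← Finset.insert_erase hx]
  unfold WT
  rw [Finset.iSup_insert, sup_comm]

/-- the span of the points of `L x` on the other lines in `T` -/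
def pts (G : SimpleGraph V) (L : V → Submodule k W) (T : Finset V) (x : V) : Submodule k W :=
  ⨆ y ∈ T, ⨆ (_ : G.Adj x y), L x ⊓ L y

theorem pts_le (T : Finset V) (x : V) : pts G L T x ≤ WT L (T.erase x) ⊓ L x := by
  refine iSup₂_le fun y hy => iSup_le fun hxy => ?_
  refine le_inf (inf_le_right.trans (le_WT ?_)) inf_le_left
  exact Finset.mem_erase.2 ⟨hxy.ne', hy⟩

theorem mem_pts {T : Finset V} {x y : V} (hy : y ∈ T) (hxy : G.Adj x y) {p : W} (h1 : p ∈ L x)
    (h2 : p ∈ L y) : p ∈ pts G L T x := by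
  have h : L x ⊓ L y ≤ pts G L T x := by
    refine le_trans ?_ (le_biSup (fun y => ⨆ (_ : G.Adj x y), L x ⊓ L y) hy)
    exact le_iSup (fun _ : G.Adj x y => L x ⊓ L y) hxy
  exact h ⟨h1, h2⟩

theorem indep_of_triple (hL : Lines G L) {x y z : V} (hxy : x ≠ y) (hxz : x ≠ z) (hyz : y ≠ z)
    {p q : W} (hp : p ≠ 0) (hq : q ≠ 0) (hp1 : p ∈ L x) (hp2 : p ∈ L y)
    (hq2 : q ∈ L z) : LinearIndependent k ![p, q] := by
  rw [LinearIndependent.pair_iff' hp]
  intro c hc
  have hc0 : c ≠ 0 := by
    rintro rfl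
    rw [zero_smul] at hc
    exact hq hc.symm
  apply hp
  apply hL.triple x y z hxy hxz hyz p hp1 hp2
  have : p = c⁻¹ • q := by rw [← hc, smul_smul, inv_mul_cancel₀ hc0, one_smul]
  rw [this]
  exact (L z).smul_mem _ hq2

theorem degIn_le_pts (hL : Lines G L) {T : Finset V} {x : V} (hd : degIn G T x ≤ 2) :
    degIn G T x ≤ Module.finrank k (pts G L T x) := by
  classical
  have hcases : degIn G T x = 0 ∨ degIn G T x = 1 ∨ degIn G T x = 2 := by omega
  rcases hcases with h | h | h
  · rw [h]
    exact Nat.zero_le _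
  · rw [h]
    unfold degIn at h
    obtain ⟨y, hy⟩ := Finset.card_eq_one.1 h
    have hy' : y ∈ T ∧ G.Adj x y := by
      have : y ∈ T.filter (fun y => G.Adj x y) := by rw [hy]; simp
      simpa using this
    obtain ⟨p, hp, hpx, hpy⟩ := hL.meet x y hy'.2
    rw [Nat.one_le_iff_ne_zero, ← Nat.pos_iff_ne_zero, Module.finrank_pos_iff,
      Submodule.nontrivial_iff_ne_bot, Submodule.ne_bot_iff]
    exact ⟨p, mem_pts hy'.1 hy'.2 hpx hpy, hp⟩
  · rw [h]
    unfold degIn at h
    obtain ⟨y, z, hyz, hyz2⟩ := Finset.card_eq_two.1 h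
    have hy' : y ∈ T ∧ G.Adj x y := by
      have : y ∈ T.filter (fun y => G.Adj x y) := by rw [hyz2]; simp
      simpa using this
    have hz' : z ∈ T ∧ G.Adj x z := by
      have : z ∈ T.filter (fun y => G.Adj x y) := by rw [hyz2]; simp
      simpa using this
    obtain ⟨p, hp, hpx, hpy⟩ := hL.meet x y hy'.2
    obtain ⟨q, hq, hqx, hqz⟩ := hL.meet x z hz'.2
    have hli := indep_of_triple hL hy'.2.ne hz'.2.ne hyz hp hq hpx hpy hqz
    have h2 : Submodule.span k (Set.range ![p, q]) ≤ pts G L T x := by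
      rw [Submodule.span_le]
      rintro _ ⟨i, rfl⟩
      fin_cases i
      · exact mem_pts hy'.1 hy'.2 hpx hpy
      · exact mem_pts hz'.1 hz'.2 hqx hqz
    have h3 := Submodule.finrank_mono h2
    rw [finrank_span_eq_card hli, Fintype.card_fin] at h3
    exact h3

theorem finrank_step (hL : Lines G L) {T : Finset V} {x : V} (hx : x ∈ T) :
    Module.finrank k (WT L T) + Module.finrank k ↥(WT L (T.erase x) ⊓ L x) =
      Module.finrank k (WT L (T.erase x)) + 2 := by
  have := Submodule.finrank_sup_add_finrank_inf_eq (WT L (T.erase x)) (L x)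
  rw [← WT_erase hx, hL.dim x] at this
  exact this

/-- every nonempty set of vertices has a vertex of degree at most two in it -/
def Degen (G : SimpleGraph V) : Prop := ∀ T : Finset V, T.Nonempty → ∃ x ∈ T, degIn G T x ≤ 2

theorem upper (hL : Lines G L) (hG : Degen G) (T : Finset V) :
    2 * Module.finrank k (WT L T) + m2 G T ≤ 4 * T.card := by
  induction hn : T.card generalizing T with
  | zero =>
    rw [Finset.card_eq_zero] at hn
    subst hn
    have h0 : WT L (∅ : Finset V) = ⊥ := by simp [WT]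
    rw [h0, finrank_bot]
    simp [m2]
  | succ n ih =>
    obtain ⟨x, hx, hd⟩ := hG T (Finset.card_pos.1 (by omega))
    have h1 := ih (T.erase x) (by rw [Finset.card_erase_of_mem hx]; omega)
    have h2 := finrank_step hL hx
    have h3 := degIn_le_pts hL hd
    have h4 := Submodule.finrank_mono (pts_le (G := G) (L := L) T x)
    rw [m2_erase hx]
    omega

/-- the lines of `T` are in general position -/
def Q (G : SimpleGraph V) (L : V → Submodule k W) (T : Finset V) : Prop :=
  4 * T.card ≤ 2 * Module.finrank k (WT L T) + m2 G T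

theorem Q_erase (hL : Lines G L) {T : Finset V} (hQ : Q G L T) {x : V} (hx : x ∈ T)
    (hd : degIn G T x ≤ 2) : Q G L (T.erase x) := by
  unfold Q at hQ ⊢
  have h2 := finrank_step hL hx
  have h3 := degIn_le_pts hL hd
  have h4 := Submodule.finrank_mono (pts_le (G := G) (L := L) T x)
  rw [m2_erase hx] at hQ
  rw [Finset.card_erase_of_mem hx]
  have : 0 < T.card := Finset.card_pos.2 ⟨x, hx⟩
  omega

theorem inf_eq_pts (hL : Lines G L) (hG : Degen G) {T : Finset V} (hQ : Q G L T) {x : V}
    (hx : x ∈ T) (hd : degIn G T x ≤ 2) : pts G L T x = WT L (T.erase x) ⊓ L x := by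
  apply Submodule.eq_of_le_of_finrank_le (pts_le T x)
  unfold Q at hQ
  have h1 := upper hL hG (T.erase x)
  have h2 := finrank_step hL hx
  have h3 := degIn_le_pts hL hd
  rw [m2_erase hx] at hQ
  rw [Finset.card_erase_of_mem hx] at h1
  have : 0 < T.card := Finset.card_pos.2 ⟨x, hx⟩
  omega

/-- Compatible families of functionals on the lines extend. -/
theorem extend (hL : Lines G L) (hG : Degen G) (T : Finset V) (hQ : Q G L T)
    (ψ : V → W →ₗ[k] k)
    (hψ : ∀ u ∈ T, ∀ v ∈ T, G.Adj u v → ∀ x, x ∈ L u → x ∈ L v → ψ u x = ψ v x) :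
    ∃ φ : W →ₗ[k] k, ∀ v ∈ T, ∀ x ∈ L v, φ x = ψ v x := by
  induction hn : T.card generalizing T with
  | zero =>
    rw [Finset.card_eq_zero] at hn
    subst hn
    exact ⟨0, by simp⟩
  | succ n ih =>
    obtain ⟨x, hx, hd⟩ := hG T (Finset.card_pos.1 (by omega))
    obtain ⟨φ, hφ⟩ := ih (T.erase x) (Q_erase hL hQ hx hd)
      (fun u hu v hv => hψ u (Finset.mem_of_mem_erase hu) v (Finset.mem_of_mem_erase hv))
      (by rw [Finset.card_erase_of_mem hx]; omega)
    have hagree : ∀ z ∈ WT L (T.erase x), z ∈ L x → φ z = ψ x z := by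
      intro z hz hzx
      have hz' : z ∈ pts G L T x := by
        rw [inf_eq_pts hL hG hQ hx hd]
        exact ⟨hz, hzx⟩
      have hle : pts G L T x ≤ LinearMap.ker (φ - ψ x) := by
        refine iSup₂_le fun y hy => iSup_le fun hxy => ?_
        rintro p ⟨hp1, hp2⟩
        rw [LinearMap.mem_ker, LinearMap.sub_apply, sub_eq_zero,
          hφ y (Finset.mem_erase.2 ⟨hxy.ne', hy⟩) p hp2]
        exact hψ y hy x hx hxy.symm p hp2 hp1
      have := hle hz'
      rw [LinearMap.mem_ker, LinearMap.sub_apply, sub_eq_zero] at this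
      exact this
    obtain ⟨χ, hχ1, hχ2⟩ := glue (WT L (T.erase x)) (L x) φ (ψ x) hagree
    refine ⟨χ, fun v hv z hz => ?_⟩
    by_cases hvx : v = x
    · subst hvx
      exact hχ2 z hz
    · have hv' : v ∈ T.erase x := Finset.mem_erase.2 ⟨hvx, hv⟩
      rw [hχ1 z (le_WT hv' hz), hφ v hv' z hz]

/-- Splitting along a bridge. -/
theorem split (hL : Lines G L) (hG : Degen G) {A B : Finset V} (hAB : Disjoint A B)
    (hQ : Q G L (A ∪ B)) {c d : V} (hc : c ∈ A) (hd : d ∈ B) (hcd : G.Adj c d)
    (hno : ∀ x ∈ A, ∀ y ∈ B, G.Adj x y → x = c ∧ y = d) :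
    Q G L A ∧ Q G L B ∧ ∀ p, p ≠ 0 → p ∈ L c → p ∈ L d →
      WT L A ⊓ WT L B = Submodule.span k {p} := by
  classical
  have hsum : ∑ x ∈ A, degIn G B x = 1 := by
    rw [Finset.sum_eq_single c]
    · unfold degIn
      rw [Finset.card_eq_one]
      refine ⟨d, ?_⟩
      ext y
      simp only [Finset.mem_filter, Finset.mem_singleton]
      constructor
      · rintro ⟨h1, h2⟩
        exact (hno c hc y h1 h2).2
      · rintro rfl
        exact ⟨hd, hcd⟩
    · intro x hx hxc
      unfold degIn
      rw [Finset.card_eq_zero, Finset.filter_eq_empty_iff]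
      intro y hy h
      exact hxc (hno x hx y hy h).1
    · intro h
      exact absurd hc h
  have hm := m2_union (G := G) hAB
  rw [hsum] at hm
  have hcard : (A ∪ B).card = A.card + B.card := Finset.card_union_of_disjoint hAB
  have hfr := Submodule.finrank_sup_add_finrank_inf_eq (WT L A) (WT L B)
  rw [← WT_union] at hfr
  have hA := upper hL hG A
  have hB := upper hL hG B
  obtain ⟨p, hp, hpc, hpd⟩ := hL.meet c d hcd
  have hpin : ∀ p, p ≠ 0 → p ∈ L c → p ∈ L d → Submodule.span k {p} ≤ WT L A ⊓ WT L B := by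
    intro p _ hpc hpd
    rw [Submodule.span_singleton_le_iff_mem]
    exact ⟨le_WT hc hpc, le_WT hd hpd⟩
  have h1 : 1 ≤ Module.finrank k ↥(WT L A ⊓ WT L B) := by
    have := Submodule.finrank_mono (hpin p hp hpc hpd)
    rwa [finrank_span_singleton hp] at this
  unfold Q at hQ ⊢
  refine ⟨by omega, by omega, fun p hp hpc hpd => ?_⟩
  symm
  apply Submodule.eq_of_le_of_finrank_le (hpin p hp hpc hpd)
  rw [finrank_span_singleton hp]
  omega

end Span

end Pool.Agent.R862.GC
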