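import Mathlib
import Pool.Agent.R862.GC.Span

/-!
Families of vectors `w v` with `w u - w v ∈ L u ∩ L v` for adjacent `u`, `v`: they are constant
along every cycle.
-/

set_option autoImplicit false

namespace Pool.Agent.R862.GC

universe u

section Paths

variable {V : Type} {G : SimpleGraph V}

/-- A list is a path in `T`. -/
structure PathIn (G : SimpleGraph V) (T : Finset V) (l : List V) : Prop where
  chain : l.IsChain G.Adj
  nodup : l.Nodup
  sub : ∀ v ∈ l, v ∈ T

theorem PathIn.mono {S T : Finset V} {l : List V} (h : PathIn G T l) (hS : ∀ v ∈ l, v ∈ S) :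
    PathIn G S l := ⟨h.chain, h.nodup, hS⟩

theorem PathIn.left {T : Finset V} {l₁ l₂ : List V} (h : PathIn G T (l₁ ++ l₂)) :
    PathIn G T l₁ :=
  ⟨h.chain.left_of_append, (List.nodup_append.1 h.nodup).1,
    fun v hv => h.sub v (List.mem_append_left _ hv)⟩

theorem PathIn.right {T : Finset V} {l₁ l₂ : List V} (h : PathIn G T (l₁ ++ l₂)) :
    PathIn G T l₂ :=
  ⟨h.chain.right_of_append, (List.nodup_append.1 h.nodup).2.1,
    fun v hv => h.sub v (List.mem_append_right _ hv)⟩

/-- A function which is not constant on a list changes at some place. -/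
theorem exists_change {W : Type u} (w : V → W) :
    ∀ (l : List V) (a : V), l.head? = some a → (∃ v ∈ l, w v ≠ w a) →
      ∃ l₁ c d l₂, l = l₁ ++ c :: d :: l₂ ∧ w c ≠ w d := by
  intro l
  induction l with
  | nil => intro a ha; simp at ha
  | cons x l ih =>
    intro a ha ⟨v, hv, hne⟩
    have hxa : x = a := by simpa using ha
    subst hxa
    rcases List.mem_cons.1 hv with rfl | hv'
    · exact absurd rfl hne
    · cases l with
      | nil => simp at hv'
      | cons y l =>
        by_cases hxy : w x = w y
        · obtain ⟨l₁, c, d, l₂, h1, h2⟩ := ih y rfl ⟨v, hv', by rwa [← hxy]⟩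
          exact ⟨x :: l₁, c, d, l₂, by rw [h1]; rfl, h2⟩
        · exact ⟨[], x, y, l, rfl, hxy⟩

/-- Elements of a chain are reachable from its head. -/
theorem reachable_of_chain {H : SimpleGraph V} :
    ∀ (l : List V) (a : V), l.head? = some a → l.IsChain H.Adj → ∀ v ∈ l, H.Reachable a v := by
  intro l
  induction l with
  | nil => intro a ha; simp at ha
  | cons x l ih =>
    intro a ha hc v hv
    have hxa : x = a := by simpa using ha
    subst hxa
    rcases List.mem_cons.1 hv with rfl | hv'
    · exact SimpleGraph.Reachable.refl _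
    · cases l with
      | nil => simp at hv'
      | cons y l =>
        rw [List.isChain_cons_cons] at hc
        exact hc.1.reachable.trans (ih y rfl hc.2 v hv')

end Paths

section Main

variable {V : Type} [DecidableEq V] {G : SimpleGraph V} {k W : Type u} [Field k] [AddCommGroup W]
  [Module k W] [FiniteDimensional k W] {L : V → Submodule k W}

/-- the line of intersection -/
theorem inter_mul (hL : Lines G L) {x y : V} (hxy : x ≠ y) {p q : W} (hp : p ≠ 0)
    (hpx : p ∈ L x) (hpy : p ∈ L y) (hqx : q ∈ L x) (hqy : q ∈ L y) : ∃ c : k, q = c • p := by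
  have h1 : Submodule.span k {p} = L x ⊓ L y := by
    apply Submodule.eq_of_le_of_finrank_le
    · rw [Submodule.span_singleton_le_iff_mem]
      exact ⟨hpx, hpy⟩
    · rw [finrank_span_singleton hp]
      by_contra hcon
      push Not at hcon
      have h2 : L x ⊓ L y = L x := by
        apply Submodule.eq_of_le_of_finrank_le inf_le_left
        rw [hL.dim]
        exact hcon
      have h3 : L x ⊓ L y = L y := by
        apply Submodule.eq_of_le_of_finrank_le inf_le_right
        rw [hL.dim]
        exact hcon
      exact hxy (hL.inj (h2.symm.trans h3))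
  have h2 : q ∈ Submodule.span k {p} := by
    rw [h1]
    exact ⟨hqx, hqy⟩
  obtain ⟨c, hc⟩ := Submodule.mem_span_singleton.1 h2
  exact ⟨c, hc.symm⟩

/-- differences along a path lie in the span of the lines -/
theorem diff_mem {w : V → W} (hw : ∀ u v, G.Adj u v → w u - w v ∈ L u ⊓ L v) {A : Finset V} :
    ∀ (l : List V) (a b : V), l.head? = some a → l.getLast? = some b → PathIn G A l →
      w a - w b ∈ WT L A := by
  intro l
  induction l with
  | nil => intro a b ha; simp at ha
  | cons x l ih =>
    intro a b ha hb hp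
    have hxa : x = a := by simpa using ha
    subst hxa
    cases l with
    | nil =>
      have hxb : x = b := by simpa using hb
      rw [hxb, sub_self]
      exact Submodule.zero_mem _
    | cons y l =>
      have h1 := ih y b rfl (by simpa using hb) ⟨hp.chain.tail, (List.nodup_cons.1 hp.nodup).2,
        fun v hv => hp.sub v (List.mem_cons_of_mem _ hv)⟩
      have h2 : G.Adj x y := (List.isChain_cons_cons.1 hp.chain).1
      have h3 := (hw x y h2).1
      have h4 : w x - w b = (w x - w y) + (w y - w b) := by abel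
      rw [h4]
      exact Submodule.add_mem _ (le_WT (hp.sub x (by simp)) h3) h1

/-- `w` is constant along every cycle in `T` -/
def PP (G : SimpleGraph V) (w : V → W) (T : Finset V) : Prop :=
  ∀ (l : List V) (u v : V), PathIn G T l → 3 ≤ l.length → l.head? = some u →
    l.getLast? = some v → G.Adj u v → w u = w v

/-- the companion statement for the induction -/
def SS (G : SimpleGraph V) (L : V → Submodule k W) (w : V → W) (T : Finset V) : Prop :=
  ∀ (l : List V) (a b : V) (y z : W) (α β : k), PathIn G T l → l.head? = some a →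
    l.getLast? = some b → y ∈ L a → z ∈ L b → (∀ c ∈ T, c ≠ a → y ∉ L c) →
    (∀ c ∈ T, c ≠ b → z ∉ L c) → LinearIndependent k ![y, z] → w a - w b = α • y + β • z →
    ∀ v ∈ l, w v = w a

theorem S_of_P (hL : Lines G L) (hG : Degen G) {w : V → W}
    (hw : ∀ u v, G.Adj u v → w u - w v ∈ L u ⊓ L v) {T : Finset V} (hQ : Q G L T)
    (hP : PP G w T) (ih : ∀ S : Finset V, S.card < T.card → Q G L S → SS G L w S) :
    SS G L w T := by
  classical
  intro l a b y z α β hl ha hb hya hzb hy hz hli hab
  by_contra hcon
  push Not at hcon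
  obtain ⟨l₁, c, d, l₂, hlcd, hcd⟩ := exists_change w l a ha hcon
  have hl' : PathIn G T ((l₁ ++ [c]) ++ (d :: l₂)) := by
    have : (l₁ ++ [c]) ++ (d :: l₂) = l := by rw [hlcd]; simp
    rw [this]
    exact hl
  have hl1 := hl'.left
  have hl2 := hl'.right
  have hcT : c ∈ T := hl1.sub c (by simp)
  have hdT : d ∈ T := hl2.sub d (by simp)
  have hcd_adj : G.Adj c d := by
    have := hl.chain
    rw [hlcd, List.isChain_append_cons_cons] at this
    exact this.2.1
  have hdisj : ∀ v, v ∈ l₁ ++ [c] → v ∈ d :: l₂ → False := by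
    intro v h1 h2
    exact (List.nodup_append.1 hl'.nodup).2.2 v h1 v h2 rfl
  -- the graph without the edge
  let H : SimpleGraph V :=
    { Adj := fun s t => G.Adj s t ∧ s ∈ T ∧ t ∈ T ∧ ¬ (s = c ∧ t = d) ∧ ¬ (s = d ∧ t = c)
      symm := ⟨fun s t h => ⟨h.1.symm, h.2.2.1, h.2.1, fun h' => h.2.2.2.2 ⟨h'.2, h'.1⟩,
        fun h' => h.2.2.2.1 ⟨h'.2, h'.1⟩⟩⟩
      loopless := ⟨fun s h => h.1.ne rfl⟩ }
  have hH : ∀ s t, H.Adj s t ↔
      G.Adj s t ∧ s ∈ T ∧ t ∈ T ∧ ¬ (s = c ∧ t = d) ∧ ¬ (s = d ∧ t = c) := fun s t => Iff.rfl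
  have hnr : ¬ H.Reachable c d := by
    intro hr
    obtain ⟨q, hq⟩ := hr.exists_isPath
    have hsub : ∀ v ∈ q.support, v ∈ T := by
      intro v hv
      by_cases hvc : v = c
      · rw [hvc]; exact hcT
      · obtain ⟨q1, q2, _⟩ := SimpleGraph.Walk.mem_support_iff_exists_append.1 hv
        have hq1 : ¬ q1.Nil := by
          intro hn
          exact hvc hn.eq.symm
        have := q1.adj_penultimate hq1
        exact ((hH _ _).1 this).2.2.1
    have hchain : q.support.IsChain G.Adj := by
      refine List.IsChain.imp (fun s t h => ?_) q.isChain_adj_support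
      exact ((hH s t).1 h).1
    have hlen : 3 ≤ q.support.length := by
      rw [SimpleGraph.Walk.length_support]
      have h0 : q.length ≠ 0 := by
        intro h0
        exact hcd_adj.ne (SimpleGraph.Walk.eq_of_length_eq_zero h0)
      have h1 : q.length ≠ 1 := by
        intro h1
        have := SimpleGraph.Walk.adj_of_length_eq_one h1
        exact ((hH _ _).1 this).2.2.2.1 ⟨rfl, rfl⟩
      omega
    have hne := q.support_ne_nil
    refine hcd (hP q.support c d ⟨hchain, hq.support_nodup, hsub⟩ hlen ?_ ?_ hcd_adj)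
    · rw [List.head?_eq_some_head hne, SimpleGraph.Walk.head_support]
    · rw [List.getLast?_eq_some_getLast hne, SimpleGraph.Walk.getLast_support]
  have hchainH : ∀ l' : List V, PathIn G T l' → (c ∉ l' ∨ d ∉ l') → l'.IsChain H.Adj := by
    intro l' hl' hcd'
    have h1 : l'.IsChain (fun s t => G.Adj s t ∧ s ∈ l' ∧ t ∈ l') := by
      have := hl'.chain
      rw [List.isChain_iff_getElem] at this ⊢
      intro i hi
      exact ⟨this i hi, List.getElem_mem _, List.getElem_mem _⟩
    refine List.IsChain.imp (fun s t h => ?_) h1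
    rw [hH]
    refine ⟨h.1, hl'.sub s h.2.1, hl'.sub t h.2.2, ?_, ?_⟩
    · rintro ⟨rfl, rfl⟩
      rcases hcd' with h' | h'
      · exact h' h.2.1
      · exact h' h.2.2
    · rintro ⟨rfl, rfl⟩
      rcases hcd' with h' | h'
      · exact h' h.2.2
      · exact h' h.2.1
  have hhead1 : (l₁ ++ [c]).head? = some a := by
    rw [hlcd] at ha
    cases l₁ with
    | nil => simpa using ha
    | cons x l₁ => simpa using ha
  have hreach1 : ∀ v ∈ l₁ ++ [c], H.Reachable c v := by
    intro v hv
    have h1 := reachable_of_chain _ a hhead1 (hchainH _ hl1 (Or.inr fun h =>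
      hdisj d h (by simp)))
    exact (h1 c (by simp)).symm.trans (h1 v hv)
  have hreach2 : ∀ v ∈ d :: l₂, H.Reachable d v := by
    intro v hv
    exact reachable_of_chain _ d rfl (hchainH _ hl2 (Or.inl fun h =>
      hdisj c (by simp) h)) v hv
  set A := T.filter (fun t => H.Reachable c t) with hA
  set B := T.filter (fun t => ¬ H.Reachable c t) with hB
  have hAB : Disjoint A B := Finset.disjoint_filter_filter_not _ _ _
  have hABT : A ∪ B = T := Finset.filter_union_filter_not_eq _ _
  have hcA : c ∈ A := Finset.mem_filter.2 ⟨hcT, SimpleGraph.Reachable.refl _⟩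
  have hdB : d ∈ B := Finset.mem_filter.2 ⟨hdT, hnr⟩
  have hsubA : ∀ v ∈ l₁ ++ [c], v ∈ A := fun v hv =>
    Finset.mem_filter.2 ⟨hl1.sub v hv, hreach1 v hv⟩
  have hsubB : ∀ v ∈ d :: l₂, v ∈ B := fun v hv =>
    Finset.mem_filter.2 ⟨hl2.sub v hv, fun h => hnr (h.trans (hreach2 v hv).symm)⟩
  have haA : a ∈ A := hsubA a (List.mem_of_mem_head? hhead1)
  have hlast2 : (d :: l₂).getLast? = some b := by
    rw [hlcd] at hb
    rw [← hb, List.getLast?_append_cons, List.getLast?_cons_cons]
  have hbB : b ∈ B := hsubB b (List.mem_of_mem_getLast? hlast2)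
  have hno : ∀ x ∈ A, ∀ y ∈ B, G.Adj x y → x = c ∧ y = d := by
    intro s hs t ht hst
    by_contra hne
    have h1 : H.Adj s t := by
      rw [hH]
      refine ⟨hst, (Finset.mem_filter.1 hs).1, (Finset.mem_filter.1 ht).1, hne, ?_⟩
      rintro ⟨rfl, rfl⟩
      exact hnr (Finset.mem_filter.1 hs).2
    exact (Finset.mem_filter.1 ht).2 ((Finset.mem_filter.1 hs).2.trans h1.reachable)
  obtain ⟨hQA, hQB, hinf⟩ := split hL hG hAB (by rw [hABT]; exact hQ) hcA hdB hcd_adj hno
  obtain ⟨p, hp0, hpc, hpd⟩ := hL.meet c d hcd_adj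
  have hinf' := hinf p hp0 hpc hpd
  obtain ⟨γ, hγ⟩ := inter_mul hL hcd_adj.ne hp0 hpc hpd (hw c d hcd_adj).1 (hw c d hcd_adj).2
  have hlast1 : (l₁ ++ [c]).getLast? = some c := by simp
  have m1 := diff_mem hw (l₁ ++ [c]) a c hhead1 hlast1 (hl1.mono hsubA)
  have m3 := diff_mem hw (d :: l₂) d b rfl hlast2 (hl2.mono hsubB)
  have hdA : d ∉ A := fun h => Finset.disjoint_left.1 hAB h hdB
  have hcB : c ∉ B := fun h => Finset.disjoint_left.1 hAB hcA h
  have hdT' : ∀ t ∈ A, t ∈ T := fun t ht => (Finset.mem_filter.1 ht).1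
  have hBT' : ∀ t ∈ B, t ∈ T := fun t ht => (Finset.mem_filter.1 ht).1
  have hda : d ≠ a := fun h => hdA (h ▸ haA)
  have hcb : c ≠ b := fun h => hcB (h ▸ hbB)
  have hcardA : A.card < T.card := by
    apply Finset.card_lt_card
    refine ⟨fun t ht => hdT' t ht, fun h => hdA (h hdT)⟩
  have hcardB : B.card < T.card := by
    apply Finset.card_lt_card
    refine ⟨fun t ht => hBT' t ht, fun h => hcB (h hcT)⟩
  have hy0 : y ≠ 0 := hli.ne_zero 0
  have hz0 : z ≠ 0 := hli.ne_zero 1
  -- independence
  have hyp : LinearIndependent k ![y, p] := by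
    rw [LinearIndependent.pair_iff' hy0]
    intro s hs
    have hs0 : s ≠ 0 := by
      rintro rfl
      rw [zero_smul] at hs
      exact hp0 hs.symm
    apply hy d hdT hda
    have : y = s⁻¹ • p := by rw [← hs, smul_smul, inv_mul_cancel₀ hs0, one_smul]
    rw [this]
    exact (L d).smul_mem _ hpd
  have hpz : LinearIndependent k ![p, z] := by
    rw [LinearIndependent.pair_iff' hp0]
    intro s hs
    apply hz c hcT hcb
    rw [← hs]
    exact (L c).smul_mem _ hpc
  have hpA : ∀ t ∈ A, t ≠ c → p ∉ L t := by
    intro t ht htc h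
    have htd : t ≠ d := fun h' => hdA (h' ▸ ht)
    exact hp0 (hL.triple c d t hcd_adj.ne htc.symm htd.symm p hpc hpd h)
  have hpB : ∀ t ∈ B, t ≠ d → p ∉ L t := by
    intro t ht htd h
    have htc : t ≠ c := fun h' => hcB (h' ▸ ht)
    exact hp0 (hL.triple c d t hcd_adj.ne htc.symm htd.symm p hpc hpd h)
  -- decomposition
  have hE : (w a - w c) - α • y ∈ WT L A ⊓ WT L B := by
    refine ⟨Submodule.sub_mem _ m1 (Submodule.smul_mem _ _ (le_WT haA hya)), ?_⟩
    have e1 : (w a - w c) - α • y = β • z - (w d - w b) - γ • p := by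
      rw [← hγ]
      have : w a = w b + (α • y + β • z) := by rw [← hab]; abel
      rw [this]
      abel
    rw [e1]
    exact Submodule.sub_mem _ (Submodule.sub_mem _ (Submodule.smul_mem _ _ (le_WT hbB hzb)) m3)
      (Submodule.smul_mem _ _ (le_WT hdB hpd))
  rw [hinf'] at hE
  obtain ⟨ε, hε⟩ := Submodule.mem_span_singleton.1 hE
  have hac : w a - w c = α • y + ε • p := by rw [hε]; abel
  have hSA := ih A hcardA hQA (l₁ ++ [c]) a c y p α ε (hl1.mono hsubA) hhead1 hlast1 hya hpc
    (fun t ht h => hy t (hdT' t ht) h) hpA hyp hac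
  have hwc : w c = w a := hSA c (by simp)
  have hαε : α • y + ε • p = 0 := by rw [← hac, hwc, sub_self]
  have hα := (LinearIndependent.pair_iff.1 hyp α ε hαε).1
  have hdb : w d - w b = (-γ) • p + β • z := by
    have e1 : w d - w b = (w a - w b) - (w a - w c) - (w c - w d) := by abel
    rw [e1, hab, hγ, hwc, hα]
    simp only [zero_smul, sub_self, neg_smul]
    abel
  have hSB := ih B hcardB hQB (d :: l₂) d b p z (-γ) β (hl2.mono hsubB) rfl hlast2 hpd hzb
    hpB (fun t ht h => hz t (hBT' t ht) h) hpz hdb
  have hwb : w b = w d := hSB b (List.mem_of_mem_getLast? hlast2)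
  have hγβ : (-γ) • p + β • z = 0 := by rw [← hdb, hwb, sub_self]
  have hγ0 := (LinearIndependent.pair_iff.1 hpz (-γ) β hγβ).1
  have hγ1 : γ = 0 := by simpa using hγ0
  apply hcd
  rw [hγ1, zero_smul] at hγ
  exact sub_eq_zero.1 hγ

theorem P_of_S (hL : Lines G L) (hG : Degen G) {w : V → W}
    (hw : ∀ u v, G.Adj u v → w u - w v ∈ L u ⊓ L v) {T : Finset V} (hQ : Q G L T)
    (ihP : ∀ S : Finset V, S.card < T.card → Q G L S → PP G w S)
    (ihS : ∀ S : Finset V, S.card < T.card → Q G L S → SS G L w S) : PP G w T := by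
  intro l u v hl hlen hu hv huv
  have hne : T.Nonempty := ⟨u, hl.sub u (List.mem_of_mem_head? hu)⟩
  obtain ⟨x, hxT, hdx⟩ := hG T hne
  have hQ' := Q_erase hL hQ hxT hdx
  have hcard : (T.erase x).card < T.card := Finset.card_erase_lt_of_mem hxT
  by_cases hxl : x ∈ l
  · obtain ⟨l₁, l₂, rfl⟩ := List.append_of_mem hxl
    -- the path around
    have hnd := hl.nodup
    rw [List.nodup_append] at hnd
    obtain ⟨hnd1, hnd2, hnd3⟩ := hnd
    rw [List.nodup_cons] at hnd2
    have hx1 : x ∉ l₁ := fun h => hnd3 x h x (by simp) rfl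
    have hch := List.isChain_append.1 hl.chain
    obtain ⟨hc1, hc2, hc3⟩ := hch
    have hc2' := List.isChain_cons.1 hc2
    have hpath : PathIn G (T.erase x) (l₂ ++ l₁) := by
      refine ⟨?_, ?_, ?_⟩
      · rw [List.isChain_append]
        refine ⟨hc2'.2, hc1, fun s hs t ht => ?_⟩
        have h1 : t = u := by
          have h2 : (l₁ ++ x :: l₂).head? = some t := by
            cases l₁ with
            | nil => simp at ht
            | cons a l₁ => simpa using ht
          rw [hu] at h2
          exact (Option.some.inj h2).symm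
        have h2 : s = v := by
          have h3 : (l₁ ++ x :: l₂).getLast? = some s := by
            cases l₂ with
            | nil => simp at hs
            | cons a l₂ =>
              rw [List.getLast?_append_cons, List.getLast?_cons_cons]
              exact hs
          rw [hv] at h3
          exact (Option.some.inj h3).symm
        rw [h1, h2]
        exact huv.symm
      · rw [List.nodup_append]
        exact ⟨hnd2.2, hnd1, fun s hs t ht h => hnd3 t ht s (List.mem_cons_of_mem _ hs) h.symm⟩
      · intro s hs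
        rw [Finset.mem_erase]
        rcases List.mem_append.1 hs with h | h
        · exact ⟨fun h' => hnd2.1 (h' ▸ h), hl.sub s (by simp [h])⟩
        · exact ⟨fun h' => hx1 (h' ▸ h), hl.sub s (by simp [h])⟩
    have hlen' : 2 ≤ (l₂ ++ l₁).length := by
      rw [List.length_append, List.length_cons] at hlen
      rw [List.length_append]
      omega
    -- head and last
    obtain ⟨a, ha, hxa⟩ : ∃ a, (l₂ ++ l₁).head? = some a ∧ G.Adj x a := by
      cases l₂ with
      | cons a l₂ => exact ⟨a, rfl, hc2'.1 a rfl⟩
      | nil =>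
        have hxv : x = v := by
          rw [List.getLast?_append_cons] at hv
          simpa using hv
        cases l₁ with
        | nil => simp at hlen'
        | cons a l₁ =>
          have hau : a = u := by simpa using hu
          refine ⟨a, rfl, ?_⟩
          rw [hxv, hau]
          exact huv.symm
    obtain ⟨b, hb, hxb⟩ : ∃ b, (l₂ ++ l₁).getLast? = some b ∧ G.Adj x b := by
      rcases List.eq_nil_or_concat l₁ with rfl | ⟨l', b, rfl⟩
      · have hxu : x = u := by simpa using hu
        rcases List.eq_nil_or_concat l₂ with rfl | ⟨l', b, rfl⟩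
        · simp at hlen'
        · refine ⟨b, by simp, ?_⟩
          have hbv : b = v := by
            have h4 : ([] ++ x :: (l' ++ [b])).getLast? = some b := by
              rw [List.nil_append, ← List.cons_append, List.getLast?_append]
              simp
            rw [List.concat_eq_append] at hv
            rw [h4] at hv
            exact Option.some.inj hv
          rw [hxu, hbv]
          exact huv
      · refine ⟨b, by simp, ?_⟩
        exact (hc3 b (by simp) x (by simp)).symm
    have hab : a ≠ b := by
      rintro rfl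
      cases hl2 : l₂ ++ l₁ with
      | nil => rw [hl2] at ha; simp at ha
      | cons c l' =>
        rw [hl2] at ha hb hlen'
        have hca : c = a := by simpa using ha
        subst hca
        cases l' with
        | nil => simp at hlen'
        | cons e l' =>
          rw [List.getLast?_cons_cons] at hb
          have hmem : c ∈ e :: l' := List.mem_of_mem_getLast? hb
          have hnd := hpath.nodup
          rw [hl2, List.nodup_cons] at hnd
          exact hnd.1 hmem
    obtain ⟨p, hp0, hpx, hpa⟩ := hL.meet x a hxa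
    obtain ⟨q, hq0, hqx, hqb⟩ := hL.meet x b hxb
    obtain ⟨α, hα⟩ := inter_mul hL hxa.ne hp0 hpx hpa (hw x a hxa).1 (hw x a hxa).2
    obtain ⟨β, hβ⟩ := inter_mul hL hxb.ne hq0 hqx hqb (hw x b hxb).1 (hw x b hxb).2
    have hli := indep_of_triple hL hxa.ne hxb.ne hab hp0 hq0 hpx hpa hqb
    have hdiff : w a - w b = (-α) • p + β • q := by
      rw [← hβ, neg_smul, ← hα]
      abel
    have hconst := ihS (T.erase x) hcard hQ' (l₂ ++ l₁) a b p q (-α) β hpath ha hb hpa hqb
      (fun c hc hca h => hp0 (hL.triple x a c hxa.ne (Finset.mem_erase.1 hc).1.symm hca.symm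
        p hpx hpa h))
      (fun c hc hcb h => hq0 (hL.triple x b c hxb.ne (Finset.mem_erase.1 hc).1.symm hcb.symm
        q hqx hqb h)) hli hdiff
    have hwb : w b = w a := hconst b (List.mem_of_mem_getLast? hb)
    have h0 : (-α) • p + β • q = 0 := by rw [← hdiff, hwb, sub_self]
    have hα0 := (LinearIndependent.pair_iff.1 hli (-α) β h0).1
    have hwx : w x = w a := by
      have : α = 0 := by simpa using hα0
      rw [this, zero_smul] at hα
      exact sub_eq_zero.1 hα
    have hall : ∀ s ∈ l₁ ++ x :: l₂, w s = w a := by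
      intro s hs
      rcases List.mem_append.1 hs with h | h
      · exact hconst s (List.mem_append_right _ h)
      · rcases List.mem_cons.1 h with rfl | h
        · exact hwx
        · exact hconst s (List.mem_append_left _ h)
    rw [hall u (List.mem_of_mem_head? hu), hall v (List.mem_of_mem_getLast? hv)]
  · refine ihP (T.erase x) hcard hQ' l u v (hl.mono fun s hs => ?_) hlen hu hv huv
    exact Finset.mem_erase.2 ⟨fun h => hxl (h ▸ hs), hl.sub s hs⟩

/-- **Main theorem on families**: they are constant along every cycle. -/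
theorem PP_all (hL : Lines G L) (hG : Degen G) {w : V → W}
    (hw : ∀ u v, G.Adj u v → w u - w v ∈ L u ⊓ L v) :
    ∀ (n : ℕ) (T : Finset V), T.card = n → Q G L T → PP G w T ∧ SS G L w T := by
  intro n
  induction n using Nat.strong_induction_on with
  | _ n ih =>
    intro T hT hQ
    have hP : PP G w T := P_of_S hL hG hw hQ
      (fun S hS hQS => (ih S.card (hT ▸ hS) S rfl hQS).1)
      (fun S hS hQS => (ih S.card (hT ▸ hS) S rfl hQS).2)
    exact ⟨hP, S_of_P hL hG hw hQ hP (fun S hS hQS => (ih S.card (hT ▸ hS) S rfl hQS).2)⟩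

end Main

end Pool.Agent.R862.GC
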