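import Mathlib

/-!
Graph curves, the graded Betti numbers of a homogeneous coordinate ring (by Koszul homology), and
the class of graphs of MP_0dc0f9_ag and MP_764677_ag.
-/

set_option autoImplicit false

namespace Pool.Agent.R862.GC

open MvPolynomial

universe u

/-! ### Betti numbers -/

section Betti

variable {k : Type u} [Field k] {N : ℕ}

/-- The polynomial ring `k[x_0, …, x_{N-1}]`. -/
abbrev Pol (k : Type u) [Field k] (N : ℕ) : Type u := MvPolynomial (Fin N) k

/-- The polynomial `f` vanishes on each of the subspaces `L v`. -/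
def VanishesOn {V : Type} (L : V → Submodule k (Fin N → k)) (f : Pol k N) : Prop :=
  ∀ v, ∀ x ∈ L v, eval x f = 0

theorem van_zero {V : Type} (L : V → Submodule k (Fin N → k)) : VanishesOn L 0 := by
  intro v x _; simp

theorem van_add {V : Type} (L : V → Submodule k (Fin N → k)) {f g : Pol k N}
    (hf : VanishesOn L f) (hg : VanishesOn L g) : VanishesOn L (f + g) := by
  intro v x hx
  rw [map_add, hf v x hx, hg v x hx, add_zero]

theorem van_smul {V : Type} (L : V → Submodule k (Fin N → k)) (c : Pol k N)
    {f : Pol k N} (hf : VanishesOn L f) : VanishesOn L (c • f) := by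
  intro v x hx
  rw [smul_eq_mul, map_mul, hf v x hx, mul_zero]

/-- The ideal of all polynomials in `x_0, …, x_{N-1}` vanishing on each of the linear subspaces
`L v` of `k^N`.  For an infinite field this is the homogeneous ideal of the union of the
projective linear spaces `ℙ(L v)` in `ℙ^{N-1}`. -/
def vanIdeal {V : Type} (L : V → Submodule k (Fin N → k)) : Ideal (Pol k N) where
  carrier := {f | VanishesOn L f}
  zero_mem' := van_zero L
  add_mem' := van_add L
  smul_mem' := van_smul L

/-- The ring `R = k[x_0, …, x_{N-1}] / I`. -/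
def CoordRing (I : Ideal (Pol k N)) : Type u := Pol k N ⧸ I

noncomputable instance (I : Ideal (Pol k N)) : CommRing (CoordRing I) :=
  Ideal.Quotient.commRing I

noncomputable instance (I : Ideal (Pol k N)) : Algebra k (CoordRing I) :=
  Ideal.Quotient.algebra k

/-- The quotient map `k[x_0, …, x_{N-1}] → R`. -/
noncomputable def toCoord (I : Ideal (Pol k N)) : Pol k N →ₐ[k] CoordRing I :=
  Ideal.Quotient.mkₐ k I

/-- The degree `d` part `R_d` of `R = k[x_0, …, x_{N-1}] / I`: the classes of the forms of
degree `d`. -/
noncomputable def quotDeg (I : Ideal (Pol k N)) (d : ℕ) : Submodule k (CoordRing I) :=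
  (homogeneousSubmodule (Fin N) k d).map (toCoord I).toLinearMap

/-- The terms of the Koszul complex of `x_0, …, x_{N-1}` on `R`, all together: families of
elements of `R` indexed by the subsets of `{0, …, N-1}`. -/
abbrev KChain (I : Ideal (Pol k N)) : Type u := Finset (Fin N) → CoordRing I

/-- The condition that `f` lies in the degree `j` part of `⋀^i (k^N) ⊗ R(-i)`: `f σ = 0` unless
the subset `σ` has `i` elements, and `f σ ∈ R_{j-i}` for the `i`-element subsets (and `f = 0` if
`j < i`). -/
def IsKoszulChain (I : Ideal (Pol k N)) (i j : ℕ) (f : KChain I) : Prop :=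
  (∀ σ, σ.card = i → i ≤ j → f σ ∈ quotDeg I (j - i)) ∧ ∀ σ, ¬ (σ.card = i ∧ i ≤ j) → f σ = 0

theorem isKoszulChain_zero (I : Ideal (Pol k N)) (i j : ℕ) : IsKoszulChain I i j 0 :=
  ⟨fun _ _ _ => Submodule.zero_mem _, fun _ _ => rfl⟩

theorem isKoszulChain_add (I : Ideal (Pol k N)) (i j : ℕ) {f g : KChain I}
    (hf : IsKoszulChain I i j f) (hg : IsKoszulChain I i j g) : IsKoszulChain I i j (f + g) := by
  refine ⟨fun σ h h' => Submodule.add_mem _ (hf.1 σ h h') (hg.1 σ h h'), fun σ h => ?_⟩
  rw [Pi.add_apply, hf.2 σ h, hg.2 σ h, add_zero]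

theorem isKoszulChain_smul (I : Ideal (Pol k N)) (i j : ℕ) (c : k) {f : KChain I}
    (hf : IsKoszulChain I i j f) : IsKoszulChain I i j (c • f) := by
  refine ⟨fun σ h h' => Submodule.smul_mem _ c (hf.1 σ h h'), fun σ h => ?_⟩
  rw [Pi.smul_apply, hf.2 σ h, smul_zero]

/-- The degree `j` part of the `i`-th term of the Koszul complex. -/
def koszulChains (I : Ideal (Pol k N)) (i j : ℕ) : Submodule k (KChain I) where
  carrier := {f | IsKoszulChain I i j f}
  zero_mem' := isKoszulChain_zero I i j
  add_mem' := isKoszulChain_add I i j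
  smul_mem' := isKoszulChain_smul I i j

/-- The class of `x_m` in `R`. -/
noncomputable def coordVar (I : Ideal (Pol k N)) (m : Fin N) : CoordRing I := toCoord I (X m)

/-- The Koszul differential,
`(∂ f)(τ) = ∑_{m ∉ τ} (-1)^{#{t ∈ τ : t < m}} x_m f(τ ∪ {m})`. -/
noncomputable def koszulFun (I : Ideal (Pol k N)) (f : KChain I) : KChain I :=
  fun τ => ∑ m ∈ Finset.univ.filter (fun m => m ∉ τ),
    (-1) ^ (τ.filter (· < m)).card * (coordVar I m * f (insert m τ))

theorem koszulFun_add (I : Ideal (Pol k N)) (f g : KChain I) :
    koszulFun I (f + g) = koszulFun I f + koszulFun I g := by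
  funext τ
  simp only [koszulFun, Pi.add_apply, mul_add, Finset.sum_add_distrib]

theorem koszulFun_smul (I : Ideal (Pol k N)) (c : k) (f : KChain I) :
    koszulFun I (c • f) = c • koszulFun I f := by
  funext τ
  simp only [koszulFun, Pi.smul_apply, mul_smul_comm, Finset.smul_sum]

/-- The Koszul differential `koszulFun` as a `k`-linear map. -/
noncomputable def koszulD (I : Ideal (Pol k N)) : KChain I →ₗ[k] KChain I where
  toFun := koszulFun I
  map_add' := koszulFun_add I
  map_smul' := koszulFun_smul I

/-- The Koszul cycles in homological degree `i` and internal degree `j`. -/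
noncomputable def koszulCycles (I : Ideal (Pol k N)) (i j : ℕ) : Submodule k (KChain I) :=
  koszulChains I i j ⊓ LinearMap.ker (koszulD I)

/-- The Koszul boundaries in homological degree `i` and internal degree `j`. -/
noncomputable def koszulBoundaries (I : Ideal (Pol k N)) (i j : ℕ) : Submodule k (KChain I) :=
  (koszulChains I (i + 1) j).map (koszulD I)

/-- The space of Koszul cycles, as a vector space. -/
def CycleSpace (I : Ideal (Pol k N)) (i j : ℕ) : Type u := koszulCycles I i j

noncomputable instance (I : Ideal (Pol k N)) (i j : ℕ) : AddCommGroup (CycleSpace I i j) :=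
  Submodule.addCommGroup (koszulCycles I i j)

noncomputable instance (I : Ideal (Pol k N)) (i j : ℕ) : Module k (CycleSpace I i j) :=
  Submodule.module (koszulCycles I i j)

/-- The inclusion of the space of cycles in the space of chains. -/
noncomputable def cycleIncl (I : Ideal (Pol k N)) (i j : ℕ) : CycleSpace I i j →ₗ[k] KChain I :=
  (koszulCycles I i j).subtype

/-- The boundaries as a submodule of the cycles. -/
noncomputable def boundariesIn (I : Ideal (Pol k N)) (i j : ℕ) : Submodule k (CycleSpace I i j) :=
  (koszulBoundaries I i j).comap (cycleIncl I i j)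

/-- The degree `j` part of the `i`-th Koszul homology of `x_0, …, x_{N-1}` on `R`, which is
`Tor_i^S(R, k)_j`: cycles modulo boundaries. -/
def KoszulHomology (I : Ideal (Pol k N)) (i j : ℕ) : Type u := CycleSpace I i j ⧸ boundariesIn I i j

noncomputable instance (I : Ideal (Pol k N)) (i j : ℕ) : AddCommGroup (KoszulHomology I i j) :=
  Submodule.Quotient.addCommGroup (boundariesIn I i j)

noncomputable instance (I : Ideal (Pol k N)) (i j : ℕ) : Module k (KoszulHomology I i j) :=
  Submodule.Quotient.module (boundariesIn I i j)

/-- The graded Betti number `b_{i,j} = dim_k Tor_i^S(S/I, k)_j`, where `S = k[x_0, …, x_{N-1}]`,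
computed by the Koszul complex. -/
noncomputable def betti (I : Ideal (Pol k N)) (i j : ℕ) : ℕ :=
  Module.finrank k (KoszulHomology I i j)

end Betti

/-! ### Graph curves -/

section Curve

variable {k : Type u} [Field k] {N : ℕ}

/-- A projective line in `ℙ^{N-1}`, given as a two-dimensional subspace of `k^N`. -/
def IsLine (W : Submodule k (Fin N → k)) : Prop := Module.finrank k W = 2

/-- The projective linear spaces of `W` and `W'` meet. -/
def Meet (W W' : Submodule k (Fin N → k)) : Prop := ∃ x, x ≠ 0 ∧ x ∈ W ∧ x ∈ W'

/-- The projective linear spaces of `W`, `W'` and `W''` have a common point. -/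
def TriplePoint (W W' W'' : Submodule k (Fin N → k)) : Prop :=
  ∃ x, x ≠ 0 ∧ x ∈ W ∧ x ∈ W' ∧ x ∈ W''

/-- The subspaces `L v` span `k^N`. -/
def Spanning {V : Type} (L : V → Submodule k (Fin N → k)) : Prop := ⨆ v, L v = ⊤

end Curve

/-- A graph curve of `G` in `ℙ^n` (over `k`): distinct lines, one for each vertex, such that the
lines of two different vertices meet exactly when the vertices are adjacent, no point lies on
three of the lines, and the lines span `ℙ^n`.  Lines are given as two-dimensional subspaces of
`k^{n+1}`. -/
structure IsGraphCurve {k : Type u} [Field k] {V : Type} (G : SimpleGraph V) {n : ℕ}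
    (L : V → Submodule k (Fin (n + 1) → k)) : Prop where
  line : ∀ v, IsLine (L v)
  inj : Function.Injective L
  meet : ∀ v w, v ≠ w → (Meet (L v) (L w) ↔ G.Adj v w)
  noTriple : ∀ u v w, u ≠ v → u ≠ w → v ≠ w → ¬ TriplePoint (L u) (L v) (L w)
  span : Spanning L

/-- The genus `g = m - d + 1` of a graph with `d` vertices and `m` edges. -/
noncomputable def genus {V : Type} (G : SimpleGraph V) : ℤ :=
  (G.edgeSet.ncard : ℤ) - Nat.card V + 1

/-- The genus `m(H) - d(H) + 1` of a subgraph `H`. -/
noncomputable def subGenus {V : Type} {G : SimpleGraph V} (H : G.Subgraph) : ℤ :=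
  (H.edgeSet.ncard : ℤ) - H.verts.ncard + 1

/-- `G` is planar: it has a straight-line drawing in the plane, with distinct points for distinct
vertices, in which the closed segment of an edge contains no vertex other than its two ends and
the closed segments of two edges without a common end are disjoint.  (Two edges with a common end
then only meet there.) -/
def IsPlanar {V : Type} (G : SimpleGraph V) : Prop :=
  ∃ p : V → ℝ × ℝ, Function.Injective p ∧
    (∀ u v w : V, G.Adj u v → w ≠ u → w ≠ v → p w ∉ segment ℝ (p u) (p v)) ∧
    ∀ u v u' v' : V, G.Adj u v → G.Adj u' v' → u ≠ u' → u ≠ v' → v ≠ u' → v ≠ v' →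
      Disjoint (segment ℝ (p u) (p v)) (segment ℝ (p u') (p v'))

/-- The `γ`-cycles of a graph: the subgraphs isomorphic to the cycle graph with `γ` vertices. -/
def cyclesOfLength {V : Type} (G : SimpleGraph V) (γ : ℕ) : Set G.Subgraph :=
  {H | Nonempty (H.coe ≃g SimpleGraph.cycleGraph γ)}

end Pool.Agent.R862.GC
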