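import Mathlib
import Pool.Agent.R862.GC.Bridge

/-!
The dimension of the space of families `w v` with `w u - w v ∈ L u ∩ L v` for adjacent `u`, `v`.
-/

set_option autoImplicit false

namespace Pool.Agent.R862.GC

universe u

/-- The set of bridges of a (connected) graph: the edges whose deletion leaves a graph which is not
connected. -/
def bridges {V : Type} (G : SimpleGraph V) : Set (Sym2 V) :=
  {e | e ∈ G.edgeSet ∧ ¬ (G.deleteEdges {e}).Connected}

variable {V : Type} [Fintype V] {G : SimpleGraph V} {k W : Type u} [Field k]
  [AddCommGroup W] [Module k W] [FiniteDimensional k W] {L : V → Submodule k W}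

/-- the space of families -/
def Fam (G : SimpleGraph V) (L : V → Submodule k W) : Submodule k (V → W) where
  carrier := {w | ∀ u v, G.Adj u v → w u - w v ∈ L u ⊓ L v}
  zero_mem' := by
    intro u v _
    simp
  add_mem' := by
    intro w w' hw hw' u v h
    have : (w + w') u - (w + w') v = (w u - w v) + (w' u - w' v) := by
      simp only [Pi.add_apply]; abel
    rw [this]
    exact Submodule.add_mem _ (hw u v h) (hw' u v h)
  smul_mem' := by
    intro c w hw u v h
    have : (c • w) u - (c • w) v = c • (w u - w v) := by
      simp only [Pi.smul_apply, smul_sub]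
    rw [this]
    exact Submodule.smul_mem _ _ (hw u v h)

theorem mem_Fam {w : V → W} : w ∈ Fam G L ↔ ∀ u v, G.Adj u v → w u - w v ∈ L u ⊓ L v := Iff.rfl

theorem const_of_nonbridge [DecidableEq V] (hL : Lines G L) (hG : Degen G)
    (hQ : Q G L Finset.univ) {w : V → W} (hw : w ∈ Fam G L) {u v : V} (huv : G.Adj u v)
    (hr : (G.deleteEdges {s(u, v)}).Reachable u v) : w u = w v := by
  classical
  obtain ⟨q, hq⟩ := hr.exists_isPath
  have hadj : ∀ s t, (G.deleteEdges {s(u, v)}).Adj s t ↔ G.Adj s t ∧ s(s, t) ≠ s(u, v) := by
    intro s t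
    rw [SimpleGraph.deleteEdges_adj]
    simp
  have hchain : q.support.IsChain G.Adj := by
    refine List.IsChain.imp (fun s t h => ?_) q.isChain_adj_support
    exact ((hadj s t).1 h).1
  have hlen : 3 ≤ q.support.length := by
    rw [SimpleGraph.Walk.length_support]
    have h0 : q.length ≠ 0 := by
      intro h0
      exact huv.ne (SimpleGraph.Walk.eq_of_length_eq_zero h0)
    have h1 : q.length ≠ 1 := by
      intro h1
      have := SimpleGraph.Walk.adj_of_length_eq_one h1
      exact ((hadj _ _).1 this).2 rfl
    omega
  have hne := q.support_ne_nil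
  refine (PP_all hL hG hw _ Finset.univ rfl hQ).1 q.support u v
    ⟨hchain, hq.support_nodup, fun _ _ => Finset.mem_univ _⟩ hlen ?_ ?_ huv
  · rw [List.head?_eq_some_head hne, SimpleGraph.Walk.head_support]
  · rw [List.getLast?_eq_some_getLast hne, SimpleGraph.Walk.getLast_support]

theorem not_reachable_of_bridge (hconn : G.Connected) {u v : V}
    (h : s(u, v) ∈ bridges G) : ¬ (G.deleteEdges {s(u, v)}).Reachable u v := by
  intro hr
  apply h.2
  apply hconn.connected_delete_edge_of_not_isBridge
  intro hb
  rw [SimpleGraph.isBridge_iff] at hb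
  exact hb hr

theorem const_of_connected (hconn : G.Connected) {w : V → W}
    (h : ∀ u v, G.Adj u v → w u = w v) (u v : V) : w u = w v := by
  obtain ⟨p⟩ := hconn.preconnected u v
  induction p with
  | nil => rfl
  | cons hadj _ ih => rw [h _ _ hadj, ih]

theorem finrank_Fam [DecidableEq V] (hL : Lines G L) (hG : Degen G)
    (hQ : Q G L Finset.univ) (hconn : G.Connected) :
    Module.finrank k (Fam G L) = Module.finrank k W + (bridges G).ncard := by
  classical
  -- choices
  have hch : ∀ e : bridges G, ∃ (u v : V) (p : W) (φ : W →ₗ[k] k), e.1 = s(u, v) ∧ G.Adj u v ∧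
      p ≠ 0 ∧ p ∈ L u ∧ p ∈ L v ∧ φ p = 1 := by
    rintro ⟨e, he⟩
    induction e with
    | h u v =>
      have huv : G.Adj u v := he.1
      obtain ⟨p, hp, h1, h2⟩ := hL.meet u v huv
      obtain ⟨φ, hφ⟩ := Module.Projective.exists_dual_eq_one k hp
      exact ⟨u, v, p, φ, rfl, huv, hp, h1, h2, hφ⟩
  choose U U' p φ hch using hch
  let δ : Fam G L →ₗ[k] (bridges G → k) :=
    LinearMap.pi fun e => (φ e ∘ₗ ((LinearMap.proj (U e) : (V → W) →ₗ[k] W) - LinearMap.proj (U' e))) ∘ₗ
      (Fam G L).subtype
  have hδ : ∀ (w : Fam G L) (e : bridges G), δ w e = φ e (w.1 (U e) - w.1 (U' e)) :=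
    fun w e => rfl
  -- the kernel
  have hker : Module.finrank k (LinearMap.ker δ) = Module.finrank k W := by
    let ι : W →ₗ[k] LinearMap.ker δ :=
      { toFun := fun x => ⟨⟨fun _ => x, by intro u v _; simp⟩, by
          rw [LinearMap.mem_ker]
          funext e
          rw [hδ]
          simp⟩
        map_add' := fun x y => rfl
        map_smul' := fun c x => rfl }
    obtain ⟨v0⟩ := hconn.nonempty
    have hbij : Function.Bijective ι := by
      constructor
      · intro x y hxy
        have h1 := congrArg Subtype.val (congrArg Subtype.val hxy)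
        exact congrFun h1 v0
      · rintro ⟨w, hw⟩
        refine ⟨w.1 v0, ?_⟩
        apply Subtype.ext
        apply Subtype.ext
        funext v
        change w.1 v0 = w.1 v
        apply const_of_connected hconn
        intro u v huv
        by_cases hb : s(u, v) ∈ bridges G
        · have h1 := congrFun (LinearMap.mem_ker.1 hw) ⟨s(u, v), hb⟩
          rw [hδ, Pi.zero_apply] at h1
          obtain ⟨e1, e2, e3, e4, e5, e6⟩ := hch ⟨s(u, v), hb⟩
          have h2 := w.2 _ _ e2
          obtain ⟨c, hc⟩ := inter_mul hL e2.ne e3 e4 e5 h2.1 h2.2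
          rw [hc, map_smul, e6, smul_eq_mul, mul_one] at h1
          rw [h1, zero_smul] at hc
          have h3 := sub_eq_zero.1 hc
          have e1' : s(u, v) = s(U ⟨s(u, v), hb⟩, U' ⟨s(u, v), hb⟩) := e1
          rcases Sym2.eq_iff.1 e1' with ⟨h4, h5⟩ | ⟨h4, h5⟩
          · rw [← h4, ← h5] at h3
            exact h3
          · rw [← h4, ← h5] at h3
            exact h3.symm
        · have hcon : (G.deleteEdges {s(u, v)}).Connected := by
            by_contra h
            exact hb ⟨huv, h⟩
          exact const_of_nonbridge hL hG hQ w.2 huv (hcon.preconnected u v)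
    exact (LinearEquiv.finrank_eq (LinearEquiv.ofBijective ι hbij)).symm
  -- surjectivity
  have hsurj : LinearMap.range δ = ⊤ := by
    rw [eq_top_iff]
    have hbasis : ∀ e : bridges G, (Pi.single e 1 : bridges G → k) ∈ LinearMap.range δ := by
      intro e
      obtain ⟨e1, e2, e3, e4, e5, e6⟩ := hch e
      have hnr : ¬ (G.deleteEdges {s(U e, U' e)}).Reachable (U e) (U' e) :=
        not_reachable_of_bridge hconn (e1 ▸ e.2)
      let w : V → W := fun t => if (G.deleteEdges {s(U e, U' e)}).Reachable (U e) t then p e else 0
      have hw : w ∈ Fam G L := by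
        intro s t hst
        by_cases hse : s(s, t) = s(U e, U' e)
        · rcases Sym2.eq_iff.1 hse with ⟨h4, h5⟩ | ⟨h4, h5⟩
          · rw [h4, h5]
            have h6 : w (U e) = p e := if_pos (SimpleGraph.Reachable.refl _)
            have h7 : w (U' e) = 0 := if_neg hnr
            rw [h6, h7, sub_zero]
            exact ⟨e4, e5⟩
          · rw [h4, h5]
            have h6 : w (U e) = p e := if_pos (SimpleGraph.Reachable.refl _)
            have h7 : w (U' e) = 0 := if_neg hnr
            rw [h6, h7, zero_sub]
            exact ⟨(L (U' e)).neg_mem e5, (L (U e)).neg_mem e4⟩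
        · have hadj : (G.deleteEdges {s(U e, U' e)}).Adj s t := by
            rw [SimpleGraph.deleteEdges_adj]
            exact ⟨hst, by simpa using hse⟩
          have hiff : (G.deleteEdges {s(U e, U' e)}).Reachable (U e) s ↔
              (G.deleteEdges {s(U e, U' e)}).Reachable (U e) t :=
            ⟨fun h => h.trans hadj.reachable, fun h => h.trans hadj.symm.reachable⟩
          have h8 : w s = w t := by
            simp only [w]
            by_cases h9 : (G.deleteEdges {s(U e, U' e)}).Reachable (U e) s
            · rw [if_pos h9, if_pos (hiff.1 h9)]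
            · rw [if_neg h9, if_neg (fun h => h9 (hiff.2 h))]
          rw [h8, sub_self]
          exact Submodule.zero_mem _
      refine ⟨⟨w, hw⟩, ?_⟩
      funext e'
      rw [hδ]
      by_cases he : e' = e
      · subst he
        have h6 : w (U e') = p e' := if_pos (SimpleGraph.Reachable.refl _)
        have h7 : w (U' e') = 0 := if_neg hnr
        change φ e' (w (U e') - w (U' e')) = _
        rw [h6, h7, sub_zero, e6, Pi.single_eq_same]
      · rw [Pi.single_eq_of_ne he]
        obtain ⟨f1, f2, f3, f4, f5, f6⟩ := hch e'
        have hadj : (G.deleteEdges {s(U e, U' e)}).Adj (U e') (U' e') := by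
          rw [SimpleGraph.deleteEdges_adj]
          refine ⟨f2, ?_⟩
          rw [Set.mem_singleton_iff, ← f1, ← e1]
          exact fun h => he (Subtype.ext h)
        have hiff : (G.deleteEdges {s(U e, U' e)}).Reachable (U e) (U e') ↔
            (G.deleteEdges {s(U e, U' e)}).Reachable (U e) (U' e') :=
          ⟨fun h => h.trans hadj.reachable, fun h => h.trans hadj.symm.reachable⟩
        change φ e' (w (U e') - w (U' e')) = _
        have h8 : w (U e') = w (U' e') := by
          simp only [w]
          by_cases h9 : (G.deleteEdges {s(U e, U' e)}).Reachable (U e) (U e')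
          · rw [if_pos h9, if_pos (hiff.1 h9)]
          · rw [if_neg h9, if_neg (fun h => h9 (hiff.2 h))]
        rw [h8, sub_self, map_zero]
    intro f _
    have hf : f = ∑ e : bridges G, f e • (Pi.single e 1 : bridges G → k) := by
      funext e
      rw [Finset.sum_apply, Finset.sum_eq_single e]
      · simp
      · intro e' _ he'
        rw [Pi.smul_apply, Pi.single_eq_of_ne he'.symm, smul_zero]
      · simp
    rw [hf]
    exact Submodule.sum_mem _ fun e _ => Submodule.smul_mem _ _ (hbasis e)
  have h := LinearMap.finrank_range_add_finrank_ker δ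
  rw [hsurj, finrank_top, Module.finrank_fintype_fun_eq_card, hker] at h
  rw [← h, add_comm, ← Nat.card_eq_fintype_card, Nat.card_coe_set_eq]

end Pool.Agent.R862.GC
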