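import Pool.Agent.R862.GC.Defs

set_option autoImplicit false

namespace Pool.Agent.R862.GC

open MvPolynomial

universe u

section Gen

variable {k : Type u} [Field k] {N : ℕ}

instance quotDeg_fin (I : Ideal (Pol k N)) (d : ℕ) : Module.Finite k (quotDeg I d) := by
  rw [Module.Finite.iff_fg]
  exact (homogeneousSubmodule_fg (Fin N) k d).map _

theorem mem_koszulChains {I : Ideal (Pol k N)} {i j : ℕ} {f : KChain I} :
    f ∈ koszulChains I i j ↔ IsKoszulChain I i j f := Iff.rfl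

theorem isKoszulChain_mem {I : Ideal (Pol k N)} {i j : ℕ} {f : KChain I}
    (hf : IsKoszulChain I i j f) (σ : Finset (Fin N)) : f σ ∈ quotDeg I (j - i) := by
  by_cases h : σ.card = i ∧ i ≤ j
  · exact hf.1 σ h.1 h.2
  · rw [hf.2 σ h]
    exact Submodule.zero_mem _

instance koszulChains_fin (I : Ideal (Pol k N)) (i j : ℕ) :
    Module.Finite k (koszulChains I i j) := by
  let φ : koszulChains I i j →ₗ[k] (Finset (Fin N) → quotDeg I (j - i)) :=
    { toFun := fun f σ => ⟨f.1 σ, isKoszulChain_mem f.2 σ⟩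
      map_add' := fun f g => rfl
      map_smul' := fun c f => rfl }
  refine Module.Finite.of_injective φ ?_
  intro f g h
  apply Subtype.ext
  funext σ
  exact congrArg Subtype.val (congrFun h σ)

instance koszulCycles_fin (I : Ideal (Pol k N)) (i j : ℕ) :
    Module.Finite k (koszulCycles I i j) := by
  have : koszulCycles I i j ≤ koszulChains I i j := inf_le_left
  exact Submodule.finiteDimensional_of_le this

theorem koszulD_apply (I : Ideal (Pol k N)) (f : KChain I) (τ : Finset (Fin N)) :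
    koszulD I f τ = ∑ m ∈ Finset.univ.filter (fun m => m ∉ τ),
    (-1) ^ (τ.filter (· < m)).card * (coordVar I m * f (insert m τ)) := rfl

theorem toCoord_eq_zero_iff {I : Ideal (Pol k N)} {f : Pol k N} :
    toCoord I f = 0 ↔ f ∈ I := Ideal.Quotient.eq_zero_iff_mem

/-- the Koszul 1-chain `∑ e_m ⊗ A_m` -/
noncomputable def oneChain (I : Ideal (Pol k N)) (A : Fin N → MvPolynomial (Fin N) k) :
    KChain I :=
  fun σ => ∑ m, if σ = {m} then toCoord I (A m) else 0

theorem oneChain_single (I : Ideal (Pol k N)) (A : Fin N → MvPolynomial (Fin N) k)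
    (m : Fin N) : oneChain I A {m} = toCoord I (A m) := by
  unfold oneChain
  rw [Finset.sum_eq_single m]
  · simp
  · intro b _ hb
    rw [if_neg]
    intro h
    exact hb (Finset.singleton_injective h).symm
  · simp

theorem oneChain_ne (I : Ideal (Pol k N)) (A : Fin N → MvPolynomial (Fin N) k)
    (σ : Finset (Fin N)) (h : σ.card ≠ 1) : oneChain I A σ = 0 := by
  unfold oneChain
  apply Finset.sum_eq_zero
  intro m _
  rw [if_neg]
  rintro rfl
  simp at h

theorem mk_mem_quotDeg (I : Ideal (Pol k N)) (d : ℕ) (f : MvPolynomial (Fin N) k)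
    (hf : f.IsHomogeneous d) : toCoord I f ∈ quotDeg I d :=
  Submodule.mem_map.2 ⟨f, hf, rfl⟩

theorem oneChain_mem (I : Ideal (Pol k N)) (A : Fin N → MvPolynomial (Fin N) k)
    (hA : ∀ m, (A m).IsHomogeneous 2) (hI : ∑ m, X m * A m ∈ I) :
    oneChain I A ∈ koszulCycles I 1 3 := by
  refine ⟨?_, ?_⟩
  · rw [SetLike.mem_coe, mem_koszulChains]
    constructor
    · intro σ h _
      obtain ⟨m, rfl⟩ := Finset.card_eq_one.1 h
      rw [oneChain_single]
      exact mk_mem_quotDeg I _ _ (hA m)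
    · intro σ h
      exact oneChain_ne I A σ (fun h' => h ⟨h', by norm_num⟩)
  · rw [SetLike.mem_coe, LinearMap.mem_ker]
    funext τ
    rw [koszulD_apply, Pi.zero_apply]
    rcases Finset.eq_empty_or_nonempty τ with rfl | hτ
    · have h1 : ∀ m : Fin N, insert m (∅ : Finset (Fin N)) = {m} := fun m => rfl
      simp only [h1, oneChain_single, Finset.notMem_empty, not_false_eq_true, Finset.filter_true,
        Finset.filter_empty, Finset.card_empty, pow_zero, one_mul]
      rw [← toCoord_eq_zero_iff.2 hI, map_sum]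
      exact Finset.sum_congr rfl fun m _ => (map_mul _ _ _).symm
    · apply Finset.sum_eq_zero
      intro m hm
      rw [oneChain_ne, mul_zero, mul_zero]
      rw [Finset.card_insert_of_notMem (by simpa using hm)]
      have := hτ.card_pos
      omega

/-- A boundary among the 1-chains of degree 3. -/
theorem oneChain_bdry [CharZero k] (I : Ideal (Pol k N))
    (A : Fin N → MvPolynomial (Fin N) k) (hA : ∀ m, (A m).IsHomogeneous 2)
    (h : oneChain I A ∈ (koszulChains I 2 3).map (koszulD I)) :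
    ∃ q : Fin N → MvPolynomial (Fin N) k, (∀ m, q m ∈ I) ∧ (∀ m, (q m).IsHomogeneous 2) ∧
      ∑ m, X m * A m = ∑ m, X m * q m := by
  obtain ⟨g, hg, hgA⟩ := Submodule.mem_map.1 h
  rw [mem_koszulChains] at hg
  have hex : ∀ σ : Finset (Fin N), ∃ H : MvPolynomial (Fin N) k, H.IsHomogeneous 1 ∧
      (σ.card = 2 → toCoord I H = g σ) := by
    intro σ
    by_cases hc : σ.card = 2
    · have := hg.1 σ hc (by norm_num)
      obtain ⟨H, hH, hH2⟩ := Submodule.mem_map.1 this
      exact ⟨H, hH, fun _ => hH2⟩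
    · exact ⟨0, isHomogeneous_zero _ _ _, fun h => absurd h hc⟩
  choose H hH1 hH2 using hex
  let t : Fin N → Fin N → MvPolynomial (Fin N) k := fun m m' =>
    if m' = m then 0 else (-1) ^ (({m} : Finset (Fin N)).filter (· < m')).card *
      (X m' * H (insert m' {m}))
  have ht : ∀ m m', X m' * t m' m = - (X m * t m m') := by
    intro m m'
    simp only [t]
    rcases lt_trichotomy m m' with h | h | h
    · rw [if_neg h.ne, if_neg h.ne']
      have e1 : ({m'} : Finset (Fin N)).filter (· < m) = ∅ := by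
        rw [Finset.filter_singleton, if_neg h.not_gt]
      have e2 : ({m} : Finset (Fin N)).filter (· < m') = {m} := by
        rw [Finset.filter_singleton, if_pos h]
      rw [e1, e2, Finset.pair_comm]
      simp only [Finset.card_empty, Finset.card_singleton, pow_zero, pow_one]
      ring
    · subst h; simp
    · rw [if_neg h.ne, if_neg h.ne']
      have e1 : ({m} : Finset (Fin N)).filter (· < m') = ∅ := by
        rw [Finset.filter_singleton, if_neg h.not_gt]
      have e2 : ({m'} : Finset (Fin N)).filter (· < m) = {m'} := by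
        rw [Finset.filter_singleton, if_pos h]
      rw [e1, e2, Finset.pair_comm]
      simp only [Finset.card_empty, Finset.card_singleton, pow_zero, pow_one]
      ring
  have hsum0 : ∑ m, ∑ m', X m * t m m' = 0 := by
    have h1 : ∑ m, ∑ m', X m * t m m' = - ∑ m, ∑ m', X m * t m m' := by
      conv_lhs => rw [Finset.sum_comm]
      rw [← Finset.sum_neg_distrib]
      apply Finset.sum_congr rfl
      intro m _
      rw [← Finset.sum_neg_distrib]
      apply Finset.sum_congr rfl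
      intro m' _
      exact ht m m'
    exact self_eq_neg.1 h1
  have hval : ∀ m, toCoord I (A m) = toCoord I (∑ m', t m m') := by
    intro m
    rw [← oneChain_single I A m, ← hgA, koszulD_apply, map_sum, Finset.sum_filter]
    apply Finset.sum_congr rfl
    intro m' _
    by_cases hm : m' = m
    · subst hm
      simp [t]
    · rw [if_pos (by simpa using hm)]
      simp only [t, if_neg hm, map_mul, map_pow, map_neg, map_one]
      rw [hH2]
      · rfl
      · rw [Finset.card_insert_of_notMem (by simpa using hm)]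
        simp
  refine ⟨fun m => A m - ∑ m', t m m', fun m => ?_, fun m => ?_, ?_⟩
  · rw [← toCoord_eq_zero_iff, map_sub, hval m, sub_self]
  · apply (hA m).sub
    apply IsHomogeneous.sum
    intro m' _
    simp only [t]
    split_ifs
    · exact isHomogeneous_zero _ _ _
    · have h1 : ((-1 : MvPolynomial (Fin N) k) ^ (({m} : Finset (Fin N)).filter (· < m')).card).IsHomogeneous 0 := by
        have : (-1 : MvPolynomial (Fin N) k) = C (-1) := by simp
        rw [this, ← C_pow]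
        exact isHomogeneous_C _ _
      have h2 := h1.mul ((isHomogeneous_X k m').mul (hH1 (insert m' {m})))
      simpa using h2
  · simp only [mul_sub, Finset.mul_sum, Finset.sum_sub_distrib, hsum0, sub_zero]

/-- Quadratic forms are quadratic. -/
theorem eval_polar {q : MvPolynomial (Fin N) k} (hq : q.IsHomogeneous 2) (x y z : Fin N → k) :
    eval (x + y + z) q + eval x q + eval y q + eval z q =
      eval (x + y) q + eval (x + z) q + eval (y + z) q ∧
    eval (x + y) q + eval (x - y) q = 2 * eval x q + 2 * eval y q := by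
  have hq' : q ∈ homogeneousSubmodule (Fin N) k 1 * homogeneousSubmodule (Fin N) k 1 := by
    rw [← pow_two, homogeneousSubmodule_one_pow]
    exact hq
  have hlin : ∀ l ∈ homogeneousSubmodule (Fin N) k 1, ∀ (x y : Fin N → k),
      eval (x + y) l = eval x l + eval y l ∧ eval (x - y) l = eval x l - eval y l := by
    intro l hl x y
    rw [homogeneousSubmodule_one_eq_span_X] at hl
    induction hl using Submodule.span_induction with
    | mem l h =>
      obtain ⟨i, rfl⟩ := h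
      simp
    | zero => simp
    | add a b _ _ ha hb =>
      simp only [map_add, ha.1, hb.1, ha.2, hb.2]
      constructor <;> ring
    | smul c a _ ha =>
      simp only [smul_eval, ha.1, ha.2]
      constructor <;> ring
  refine Submodule.mul_induction_on (C := fun q => eval (x + y + z) q + eval x q + eval y q +
    eval z q = eval (x + y) q + eval (x + z) q + eval (y + z) q ∧
    eval (x + y) q + eval (x - y) q = 2 * eval x q + 2 * eval y q) hq' ?_ ?_
  · intro a ha b hb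
    simp only [map_mul, (hlin a ha _ _).1, (hlin b hb _ _).1, (hlin a ha _ _).2,
      (hlin b hb _ _).2]
    constructor <;> ring
  · intro a b ha hb
    simp only [map_add]
    obtain ⟨ha1, ha2⟩ := ha
    obtain ⟨hb1, hb2⟩ := hb
    constructor
    · linear_combination ha1 + hb1
    · linear_combination ha2 + hb2

end Gen

/-! ### The graph: a theta graph with a leaf -/

/-- The edges of the example. -/
def edgesB : Fin 6 → Fin 6 → Bool := fun a b =>
  (a, b) ∈ [((0 : Fin 6), (1 : Fin 6)), (1, 0), (0, 2), (2, 0), (1, 2), (2, 1), (0, 3), (3, 0),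
    (3, 4), (4, 3), (1, 4), (4, 1), (3, 5), (5, 3)]

/-- The graph with vertices `0, …, 5` and edges `01, 02, 12, 03, 34, 14, 35`: the vertices `0`
and `1` are joined by an edge, by the path `0 2 1` and by the path `0 3 4 1`, and `5` is a leaf
attached to `3`. -/
def thetaLeaf : SimpleGraph (Fin 6) where
  Adj a b := edgesB a b = true
  symm := ⟨by decide⟩
  loopless := ⟨by decide⟩

instance : DecidableRel thetaLeaf.Adj := fun a b => inferInstanceAs (Decidable (edgesB a b = true))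

/-- Spanning vectors of the six lines. -/
def basisVec (k : Type u) [Field k] : Fin 6 → Fin 2 → Fin 5 → k :=
  ![![![1, 0, 0, 0, 0], ![0, 1, 0, 0, 0]],
    ![![1, 0, 0, 0, 0], ![0, 0, 1, 0, 0]],
    ![![0, 1, 0, 0, 0], ![0, 0, 1, 0, 0]],
    ![![1, 1, 0, 0, 0], ![0, 0, 0, 1, 0]],
    ![![1, 0, 1, 0, 0], ![0, 0, 0, 1, 0]],
    ![![1, 1, 0, 1, 0], ![0, 0, 0, 0, 1]]]

/-- The six lines. -/
def lines (k : Type u) [Field k] (v : Fin 6) : Submodule k (Fin (4 + 1) → k) :=
  Submodule.span k (Set.range (basisVec k v))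

section Lines

variable {k : Type u} [Field k]

theorem mem_lines {v : Fin 6} {x : Fin (4 + 1) → k} :
    x ∈ lines k v ↔ ∃ s t : k, ∀ i, x i = s * basisVec k v 0 i + t * basisVec k v 1 i := by
  unfold lines
  rw [Submodule.mem_span_range_iff_exists_fun]
  constructor
  · rintro ⟨c, rfl⟩
    exact ⟨c 0, c 1, fun i => by simp [Fin.sum_univ_two]⟩
  · rintro ⟨s, t, h⟩
    refine ⟨![s, t], ?_⟩
    funext i
    rw [h i]
    simp [Fin.sum_univ_two]

theorem mem_l0 {x : Fin (4 + 1) → k} : x ∈ lines k 0 ↔ x 2 = 0 ∧ x 3 = 0 ∧ x 4 = 0 := by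
  rw [mem_lines]
  constructor
  · rintro ⟨s, t, h⟩
    refine ⟨?_, ?_, ?_⟩ <;> rw [h] <;> simp [basisVec]
  · rintro ⟨h1, h2, h3⟩
    refine ⟨x 0, x 1, fun i => ?_⟩
    fin_cases i <;> simp [basisVec, h1, h2, h3]

theorem mem_l1 {x : Fin (4 + 1) → k} : x ∈ lines k 1 ↔ x 1 = 0 ∧ x 3 = 0 ∧ x 4 = 0 := by
  rw [mem_lines]
  constructor
  · rintro ⟨s, t, h⟩
    refine ⟨?_, ?_, ?_⟩ <;> rw [h] <;> simp [basisVec]
  · rintro ⟨h1, h2, h3⟩
    refine ⟨x 0, x 2, fun i => ?_⟩
    fin_cases i <;> simp [basisVec, h1, h2, h3]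

theorem mem_l2 {x : Fin (4 + 1) → k} : x ∈ lines k 2 ↔ x 0 = 0 ∧ x 3 = 0 ∧ x 4 = 0 := by
  rw [mem_lines]
  constructor
  · rintro ⟨s, t, h⟩
    refine ⟨?_, ?_, ?_⟩ <;> rw [h] <;> simp [basisVec]
  · rintro ⟨h1, h2, h3⟩
    refine ⟨x 1, x 2, fun i => ?_⟩
    fin_cases i <;> simp [basisVec, h1, h2, h3]

theorem mem_l3 {x : Fin (4 + 1) → k} : x ∈ lines k 3 ↔ x 1 = x 0 ∧ x 2 = 0 ∧ x 4 = 0 := by
  rw [mem_lines]
  constructor
  · rintro ⟨s, t, h⟩
    refine ⟨?_, ?_, ?_⟩ <;> rw [h] <;> simp [basisVec, h]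
  · rintro ⟨h1, h2, h3⟩
    refine ⟨x 0, x 3, fun i => ?_⟩
    fin_cases i <;> simp [basisVec, h1, h2, h3]

theorem mem_l4 {x : Fin (4 + 1) → k} : x ∈ lines k 4 ↔ x 2 = x 0 ∧ x 1 = 0 ∧ x 4 = 0 := by
  rw [mem_lines]
  constructor
  · rintro ⟨s, t, h⟩
    refine ⟨?_, ?_, ?_⟩ <;> rw [h] <;> simp [basisVec, h]
  · rintro ⟨h1, h2, h3⟩
    refine ⟨x 0, x 3, fun i => ?_⟩
    fin_cases i <;> simp [basisVec, h1, h2, h3]

theorem mem_l5 {x : Fin (4 + 1) → k} : x ∈ lines k 5 ↔ x 1 = x 0 ∧ x 3 = x 0 ∧ x 2 = 0 := by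
  rw [mem_lines]
  constructor
  · rintro ⟨s, t, h⟩
    refine ⟨?_, ?_, ?_⟩ <;> rw [h] <;> simp [basisVec, h]
  · rintro ⟨h1, h2, h3⟩
    refine ⟨x 0, x 4, fun i => ?_⟩
    fin_cases i <;> simp [basisVec, h1, h2, h3]

theorem finrank_lines (v : Fin 6) : Module.finrank k (lines k v) = 2 := by
  unfold lines
  rw [finrank_span_eq_card, Fintype.card_fin]
  have key : ∀ s t : k, (∀ i, s * basisVec k v 0 i + t * basisVec k v 1 i = 0) → s = 0 ∧ t = 0 := by
    intro s t h
    fin_cases v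
    · exact ⟨by simpa [basisVec] using h 0, by simpa [basisVec] using h 1⟩
    · exact ⟨by simpa [basisVec] using h 0, by simpa [basisVec] using h 2⟩
    · exact ⟨by simpa [basisVec] using h 1, by simpa [basisVec] using h 2⟩
    · exact ⟨by simpa [basisVec] using h 0, by simpa [basisVec] using h 3⟩
    · exact ⟨by simpa [basisVec] using h 0, by simpa [basisVec] using h 3⟩
    · exact ⟨by simpa [basisVec] using h 0, by simpa [basisVec] using h 4⟩
  rw [Fintype.linearIndependent_iff]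
  intro g hg i
  have := key (g 0) (g 1) (fun i => by
    have h := congrFun hg i
    simpa [Fin.sum_univ_two] using h)
  fin_cases i
  · exact this.1
  · exact this.2

theorem nz_of {x : Fin (4 + 1) → k} {W : Submodule k (Fin (4 + 1) → k)} (hx : x ∈ W)
    (i : Fin (4 + 1)) (hi : x i = 1) : W ≠ ⊥ := by
  rw [Submodule.ne_bot_iff]
  refine ⟨x, hx, ?_⟩
  intro h
  rw [h] at hi
  simp at hi

theorem bot_of {W : Submodule k (Fin (4 + 1) → k)}
    (h : ∀ x ∈ W, x 0 = 0 ∧ x 1 = 0 ∧ x 2 = 0 ∧ x 3 = 0 ∧ x 4 = 0) : W = ⊥ := by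
  rw [Submodule.eq_bot_iff]
  intro x hx
  obtain ⟨h0, h1, h2, h3, h4⟩ := h x hx
  funext i
  fin_cases i
  · exact h0
  · exact h1
  · exact h2
  · exact h3
  · exact h4

theorem meet_aux {v w : Fin 6} (hvw : v < w) : lines k v ⊓ lines k w ≠ ⊥ ↔ thetaLeaf.Adj v w := by
  have e : thetaLeaf.Adj v w ↔ edgesB v w = true := Iff.rfl
  rw [e]
  have hbot : ∀ v w : Fin 6, edgesB v w = false → v < w →
      (v = 0 ∧ w = 4) ∨ (v = 0 ∧ w = 5) ∨ (v = 1 ∧ w = 3) ∨ (v = 1 ∧ w = 5) ∨ (v = 2 ∧ w = 3) ∨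
      (v = 2 ∧ w = 4) ∨ (v = 2 ∧ w = 5) ∨ (v = 4 ∧ w = 5) := by decide
  have htop : ∀ v w : Fin 6, edgesB v w = true → v < w →
      (v = 0 ∧ w = 1) ∨ (v = 0 ∧ w = 2) ∨ (v = 0 ∧ w = 3) ∨ (v = 1 ∧ w = 2) ∨ (v = 1 ∧ w = 4) ∨
      (v = 3 ∧ w = 4) ∨ (v = 3 ∧ w = 5) := by decide
  constructor
  · intro h
    by_contra h1
    apply h
    apply bot_of
    intro x hx
    obtain ⟨ha, hb⟩ := Submodule.mem_inf.1 hx
    rcases hbot v w (by simpa using h1) hvw with ⟨rfl, rfl⟩ | ⟨rfl, rfl⟩ | ⟨rfl, rfl⟩ | ⟨rfl, rfl⟩ |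
      ⟨rfl, rfl⟩ | ⟨rfl, rfl⟩ | ⟨rfl, rfl⟩ | ⟨rfl, rfl⟩ <;>
    simp only [mem_l0, mem_l1, mem_l2, mem_l3, mem_l4, mem_l5] at ha hb <;> grind
  · intro h
    rcases htop v w h hvw with ⟨rfl, rfl⟩ | ⟨rfl, rfl⟩ | ⟨rfl, rfl⟩ | ⟨rfl, rfl⟩ |
      ⟨rfl, rfl⟩ | ⟨rfl, rfl⟩ | ⟨rfl, rfl⟩
    · refine nz_of (x := ![1, 0, 0, 0, 0]) (Submodule.mem_inf.2 ⟨mem_l0.2 ?_, mem_l1.2 ?_⟩) 0 ?_ <;> simp
    · refine nz_of (x := ![0, 1, 0, 0, 0]) (Submodule.mem_inf.2 ⟨mem_l0.2 ?_, mem_l2.2 ?_⟩) 1 ?_ <;> simp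
    · refine nz_of (x := ![1, 1, 0, 0, 0]) (Submodule.mem_inf.2 ⟨mem_l0.2 ?_, mem_l3.2 ?_⟩) 0 ?_ <;> simp
    · refine nz_of (x := ![0, 0, 1, 0, 0]) (Submodule.mem_inf.2 ⟨mem_l1.2 ?_, mem_l2.2 ?_⟩) 2 ?_ <;> simp
    · refine nz_of (x := ![1, 0, 1, 0, 0]) (Submodule.mem_inf.2 ⟨mem_l1.2 ?_, mem_l4.2 ?_⟩) 0 ?_ <;> simp
    · refine nz_of (x := ![0, 0, 0, 1, 0]) (Submodule.mem_inf.2 ⟨mem_l3.2 ?_, mem_l4.2 ?_⟩) 3 ?_ <;> simp
    · refine nz_of (x := ![1, 1, 0, 1, 0]) (Submodule.mem_inf.2 ⟨mem_l3.2 ?_, mem_l5.2 ?_⟩) 0 ?_ <;> simp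

theorem meet_lines {v w : Fin 6} (hvw : v ≠ w) : lines k v ⊓ lines k w ≠ ⊥ ↔ thetaLeaf.Adj v w := by
  rcases lt_or_gt_of_ne hvw with h | h
  · exact meet_aux h
  · rw [inf_comm, meet_aux h, thetaLeaf.adj_comm]

theorem meet_iff {N : ℕ} (W W' : Submodule k (Fin N → k)) : Meet W W' ↔ W ⊓ W' ≠ ⊥ := by
  rw [Submodule.ne_bot_iff]
  constructor
  · rintro ⟨x, h0, h1, h2⟩
    exact ⟨x, ⟨h1, h2⟩, h0⟩
  · rintro ⟨x, ⟨h1, h2⟩, h0⟩
    exact ⟨x, h0, h1, h2⟩

theorem isGraphCurve_lines : IsGraphCurve thetaLeaf (n := 4) (lines k) where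
  line := finrank_lines
  inj := by
    intro v w h
    by_contra hvw
    have hsame : ∀ x ∈ lines k v, x ∈ lines k w := by
      intro x hx
      rw [← h]
      exact hx
    have hsame' : ∀ x ∈ lines k w, x ∈ lines k v := by
      intro x hx
      rw [h]
      exact hx
    have e0 : ∀ u i, basisVec k u i ∈ lines k u := fun u i =>
      Submodule.subset_span (Set.mem_range_self i)
    have a0 := hsame _ (e0 v 0)
    have a1 := hsame _ (e0 v 1)
    have b0 := hsame' _ (e0 w 0)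
    have b1 := hsame' _ (e0 w 1)
    clear hsame hsame' h
    fin_cases v <;> fin_cases w <;>
      first
        | exact hvw rfl
        | (simp [mem_l0, mem_l1, mem_l2, mem_l3, mem_l4, mem_l5, basisVec] at a0 a1 b0 b1)
  meet := fun v w h => (meet_iff _ _).trans (meet_lines h)
  noTriple := by
    intro u v w huv huw hvw htp
    have hne : lines k u ⊓ lines k v ⊓ lines k w ≠ ⊥ := by
      obtain ⟨x, h0, h1, h2, h3⟩ := htp
      rw [Submodule.ne_bot_iff]
      exact ⟨x, ⟨⟨h1, h2⟩, h3⟩, h0⟩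
    have h1 : thetaLeaf.Adj u v := by
      rw [← meet_lines (k := k) huv]
      intro h
      apply hne
      rw [h, bot_inf_eq]
    have h2 : thetaLeaf.Adj u w := by
      rw [← meet_lines (k := k) huw]
      intro h
      apply hne
      rw [inf_right_comm, h, bot_inf_eq]
    have h3 : thetaLeaf.Adj v w := by
      rw [← meet_lines (k := k) hvw]
      intro h
      apply hne
      rw [inf_assoc, h, inf_bot_eq]
    apply hne
    have key : ∀ u v w : Fin 6, edgesB u v = true → edgesB u w = true → edgesB v w = true →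
      (u = 0 ∨ v = 0 ∨ w = 0) ∧ (u = 1 ∨ v = 1 ∨ w = 1) ∧ (u = 2 ∨ v = 2 ∨ w = 2) := by decide
    obtain ⟨k0, k1, k2⟩ := key u v w h1 h2 h3
    apply bot_of
    intro x hx
    obtain ⟨hx', hc⟩ := Submodule.mem_inf.1 hx
    obtain ⟨ha, hb⟩ := Submodule.mem_inf.1 hx'
    have m0 : x ∈ lines k 0 := by
      rcases k0 with rfl | rfl | rfl <;> assumption
    have m1 : x ∈ lines k 1 := by
      rcases k1 with rfl | rfl | rfl <;> assumption
    have m2 : x ∈ lines k 2 := by
      rcases k2 with rfl | rfl | rfl <;> assumption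
    rw [mem_l0] at m0
    rw [mem_l1] at m1
    rw [mem_l2] at m2
    exact ⟨m2.1, m1.1, m0.1, m0.2.1, m0.2.2⟩
  span := by
    unfold Spanning
    rw [eq_top_iff]
    intro x _
    have hx : x = (![x 0, x 1, 0, 0, 0] : Fin (4 + 1) → k) + ![0, 0, x 2, 0, 0] + ![0, 0, 0, x 3, 0] +
        ![0, 0, 0, 0, x 4] := by
      funext i
      fin_cases i <;> simp
    rw [hx]
    refine add_mem (add_mem (add_mem ?_ ?_) ?_) ?_
    · exact Submodule.mem_iSup_of_mem 0 (mem_l0.2 (by simp))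
    · exact Submodule.mem_iSup_of_mem 1 (mem_l1.2 (by simp))
    · exact Submodule.mem_iSup_of_mem 3 (mem_l3.2 (by simp))
    · exact Submodule.mem_iSup_of_mem 5 (mem_l5.2 (by simp))

/-- `X_1 X_2` in the `0`-th place. -/
noncomputable def cyc1 (k : Type u) [Field k] : Fin (4 + 1) → MvPolynomial (Fin (4 + 1)) k :=
  fun m => if m = 0 then X 1 * X 2 else 0

/-- `X_1 X_2` in the `3`-rd place. -/
noncomputable def cyc2 (k : Type u) [Field k] : Fin (4 + 1) → MvPolynomial (Fin (4 + 1)) k :=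
  fun m => if m = 3 then X 1 * X 2 else 0

theorem hom_X1X2 : (X 1 * X 2 : MvPolynomial (Fin (4 + 1)) k).IsHomogeneous 2 := by
  have := (isHomogeneous_X k (1 : Fin (4 + 1))).mul (isHomogeneous_X k (2 : Fin (4 + 1)))
  simpa using this

theorem cyc1_sum : ∑ m, X m * cyc1 k m = X 0 * (X 1 * X 2) := by
  rw [Finset.sum_eq_single 0]
  · simp [cyc1]
  · intro b _ hb
    simp [cyc1, hb]
  · simp

theorem cyc2_sum : ∑ m, X m * cyc2 k m = X 3 * (X 1 * X 2) := by
  rw [Finset.sum_eq_single 3]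
  · simp [cyc2]
  · intro b _ hb
    simp [cyc2, hb]
  · simp

theorem forall_lines {P : (Fin (4 + 1) → k) → Prop}
    (h0 : ∀ x : Fin (4 + 1) → k, x 2 = 0 → x 3 = 0 → x 4 = 0 → P x)
    (h1 : ∀ x : Fin (4 + 1) → k, x 1 = 0 → x 3 = 0 → x 4 = 0 → P x)
    (h2 : ∀ x : Fin (4 + 1) → k, x 0 = 0 → x 3 = 0 → x 4 = 0 → P x)
    (h3 : ∀ x : Fin (4 + 1) → k, x 1 = x 0 → x 2 = 0 → x 4 = 0 → P x)
    (h4 : ∀ x : Fin (4 + 1) → k, x 2 = x 0 → x 1 = 0 → x 4 = 0 → P x)
    (h5 : ∀ x : Fin (4 + 1) → k, x 1 = x 0 → x 3 = x 0 → x 2 = 0 → P x) :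
    ∀ v, ∀ x ∈ lines k v, P x := by
  intro v x hx
  fin_cases v
  · obtain ⟨a, b, c⟩ := mem_l0.1 hx; exact h0 x a b c
  · obtain ⟨a, b, c⟩ := mem_l1.1 hx; exact h1 x a b c
  · obtain ⟨a, b, c⟩ := mem_l2.1 hx; exact h2 x a b c
  · obtain ⟨a, b, c⟩ := mem_l3.1 hx; exact h3 x a b c
  · obtain ⟨a, b, c⟩ := mem_l4.1 hx; exact h4 x a b c
  · obtain ⟨a, b, c⟩ := mem_l5.1 hx; exact h5 x a b c

theorem F1_mem : (X 0 * (X 1 * X 2) : MvPolynomial (Fin (4 + 1)) k) ∈ vanIdeal (lines k) := by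
  change ∀ v, ∀ x ∈ lines k v, eval x _ = 0
  apply forall_lines <;> intro x a b c <;> simp [*]

theorem F2_mem : (X 3 * (X 1 * X 2) : MvPolynomial (Fin (4 + 1)) k) ∈ vanIdeal (lines k) := by
  change ∀ v, ∀ x ∈ lines k v, eval x _ = 0
  apply forall_lines <;> intro x a b c <;> simp [*]

/-- Quadrics through the curve vanish at `(1,1,1,0,0)` and at `(2,1,1,1,0)`. -/
theorem quadric_van [CharZero k] {q : MvPolynomial (Fin (4 + 1)) k} (hq : q.IsHomogeneous 2)
    (hI : q ∈ vanIdeal (lines k)) :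
    eval ![1, 1, 1, 0, 0] q = 0 ∧ eval ![2, 1, 1, 1, 0] q = 0 := by
  have hv : ∀ v, ∀ x ∈ lines k v, eval x q = 0 := hI
  constructor
  · have h := (eval_polar hq ![1, 0, 0, 0, 0] ![0, 1, 0, 0, 0] ![0, 0, 1, 0, 0]).1
    have e : (![1, 1, 1, 0, 0] : Fin (4 + 1) → k) =
        ![1, 0, 0, 0, 0] + ![0, 1, 0, 0, 0] + ![0, 0, 1, 0, 0] := by
      funext i; fin_cases i <;> simp
    rw [e]
    rw [hv 0 ![1, 0, 0, 0, 0] (mem_l0.2 (by simp)), hv 0 ![0, 1, 0, 0, 0] (mem_l0.2 (by simp)),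
      hv 1 ![0, 0, 1, 0, 0] (mem_l1.2 (by simp)),
      hv 0 (![1, 0, 0, 0, 0] + ![0, 1, 0, 0, 0]) (mem_l0.2 (by simp)),
      hv 1 (![1, 0, 0, 0, 0] + ![0, 0, 1, 0, 0]) (mem_l1.2 (by simp)),
      hv 2 (![0, 1, 0, 0, 0] + ![0, 0, 1, 0, 0]) (mem_l2.2 (by simp))] at h
    simpa using h
  · have h := (eval_polar hq ![1, 1, 0, 0, 0] ![1, 0, 1, 0, 0] ![0, 0, 0, 1, 0]).1
    have h' := (eval_polar hq ![1, 1, 0, 0, 0] ![1, 0, 1, 0, 0] ![0, 0, 0, 1, 0]).2
    have e : (![2, 1, 1, 1, 0] : Fin (4 + 1) → k) =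
        ![1, 1, 0, 0, 0] + ![1, 0, 1, 0, 0] + ![0, 0, 0, 1, 0] := by
      funext i; fin_cases i <;> simp
      norm_num
    rw [e]
    rw [hv 3 ![1, 1, 0, 0, 0] (mem_l3.2 (by simp)), hv 4 ![1, 0, 1, 0, 0] (mem_l4.2 (by simp)),
      hv 2 (![1, 1, 0, 0, 0] - ![1, 0, 1, 0, 0]) (mem_l2.2 (by simp))] at h'
    rw [hv 3 ![1, 1, 0, 0, 0] (mem_l3.2 (by simp)), hv 4 ![1, 0, 1, 0, 0] (mem_l4.2 (by simp)),
      hv 3 ![0, 0, 0, 1, 0] (mem_l3.2 (by simp)),
      hv 3 (![1, 1, 0, 0, 0] + ![0, 0, 0, 1, 0]) (mem_l3.2 (by simp)),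
      hv 4 (![1, 0, 1, 0, 0] + ![0, 0, 0, 1, 0]) (mem_l4.2 (by simp))] at h
    simp only [add_zero, mul_zero] at h h'
    rw [h, h']

theorem two_le_betti [CharZero k] : 2 ≤ betti (vanIdeal (lines k)) 1 3 := by
  set I := vanIdeal (lines k) with hIdef
  have c1h : ∀ m, (cyc1 k m).IsHomogeneous 2 := by
    intro m
    unfold cyc1
    split_ifs
    · exact hom_X1X2
    · exact isHomogeneous_zero _ _ _
  have c2h : ∀ m, (cyc2 k m).IsHomogeneous 2 := by
    intro m
    unfold cyc2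
    split_ifs
    · exact hom_X1X2
    · exact isHomogeneous_zero _ _ _
  have z1 : oneChain I (cyc1 k) ∈ koszulCycles I 1 3 :=
    oneChain_mem I _ c1h (by rw [cyc1_sum]; exact F1_mem)
  have z2 : oneChain I (cyc2 k) ∈ koszulCycles I 1 3 :=
    oneChain_mem I _ c2h (by rw [cyc2_sum]; exact F2_mem)
  let a1 : CycleSpace I 1 3 := ⟨_, z1⟩
  let a2 : CycleSpace I 1 3 := ⟨_, z2⟩
  have hli : LinearIndependent k ![((boundariesIn I 1 3).mkQ a1 : KoszulHomology I 1 3),
      (boundariesIn I 1 3).mkQ a2] := by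
    rw [LinearIndependent.pair_iff]
    intro s t hst
    have hst' : (boundariesIn I 1 3).mkQ (s • a1 + t • a2) = 0 := by
      rw [map_add, map_smul, map_smul]
      exact hst
    rw [← LinearMap.mem_ker, Submodule.ker_mkQ] at hst'
    replace hst : cycleIncl I 1 3 (s • a1 + t • a2) ∈ koszulBoundaries I 1 3 := hst'
    have e : cycleIncl I 1 3 (s • a1 + t • a2) =
        oneChain I (fun m => C s * cyc1 k m + C t * cyc2 k m) := by
      have e1 : cycleIncl I 1 3 a1 = oneChain I (cyc1 k) := rfl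
      have e2 : cycleIncl I 1 3 a2 = oneChain I (cyc2 k) := rfl
      rw [map_add, map_smul, map_smul, e1, e2]
      funext σ
      simp only [Pi.add_apply, Pi.smul_apply, oneChain]
      rw [Finset.smul_sum, Finset.smul_sum, ← Finset.sum_add_distrib]
      apply Finset.sum_congr rfl
      intro m _
      by_cases hm : σ = {m}
      · simp only [hm, if_true]
        rw [C_mul', C_mul']
        rfl
      · simp [hm]
    rw [e] at hst
    obtain ⟨q, hq1, hq2, hq3⟩ := oneChain_bdry I _ (fun m => by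
      have a := (isHomogeneous_C (Fin (4 + 1)) s).mul (c1h m)
      have b := (isHomogeneous_C (Fin (4 + 1)) t).mul (c2h m)
      rw [zero_add] at a b
      exact a.add b) hst
    have hl : ∑ m, X m * (C s * cyc1 k m + C t * cyc2 k m) =
        C s * (X 0 * (X 1 * X 2)) + C t * (X 3 * (X 1 * X 2)) := by
      rw [← cyc1_sum, ← cyc2_sum, Finset.mul_sum, Finset.mul_sum, ← Finset.sum_add_distrib]
      exact Finset.sum_congr rfl fun m _ => by ring
    rw [hl] at hq3
    have hs : s = 0 := by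
      have h := congrArg (eval ![1, 1, 1, 0, 0]) hq3
      rw [map_sum, Finset.sum_eq_zero (fun m _ => by
        rw [map_mul, (quadric_van (hq2 m) (hq1 m)).1, mul_zero])] at h
      simpa using h
    refine ⟨hs, ?_⟩
    have h := congrArg (eval ![2, 1, 1, 1, 0]) hq3
    rw [map_sum, Finset.sum_eq_zero (fun m _ => by
      rw [map_mul, (quadric_van (hq2 m) (hq1 m)).2, mul_zero]), hs] at h
    simpa using h
  have : Module.Finite k (CycleSpace I 1 3) := koszulCycles_fin I 1 3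
  have : Module.Finite k (KoszulHomology I 1 3) :=
    inferInstanceAs (Module.Finite k (CycleSpace I 1 3 ⧸ boundariesIn I 1 3))
  have h2 := hli.fintype_card_le_finrank
  rw [Fintype.card_fin] at h2
  exact h2

end Lines

/-! ### Properties of the graph -/

theorem adj_iff (a b : Fin 6) : thetaLeaf.Adj a b ↔ edgesB a b = true := Iff.rfl

theorem thetaLeaf_connected : thetaLeaf.Connected := by
  have h01 : thetaLeaf.Adj 0 1 := by rw [adj_iff]; decide
  have h02 : thetaLeaf.Adj 0 2 := by rw [adj_iff]; decide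
  have h03 : thetaLeaf.Adj 0 3 := by rw [adj_iff]; decide
  have h34 : thetaLeaf.Adj 3 4 := by rw [adj_iff]; decide
  have h35 : thetaLeaf.Adj 3 5 := by rw [adj_iff]; decide
  have key : ∀ v, thetaLeaf.Reachable 0 v := by
    intro v
    fin_cases v
    · exact SimpleGraph.Reachable.refl _
    · exact h01.reachable
    · exact h02.reachable
    · exact h03.reachable
    · exact h03.reachable.trans h34.reachable
    · exact h03.reachable.trans h35.reachable
  rw [SimpleGraph.connected_iff]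
  exact ⟨fun a b => (key a).symm.trans (key b), ⟨0⟩⟩

theorem thetaLeaf_degree (v : Fin 6) : thetaLeaf.degree v ≤ 3 := by
  revert v
  decide

/-- A drawing. -/
noncomputable def pos : Fin 6 → ℝ × ℝ :=
  ![(0, 0), (4, 0), (2, 2), (0, -4), (4, -4), (-2, -4)]

end Pool.Agent.R862.GC
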