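import Mathlib
import Pool.Agent.R862.GC.FamDim
import Pool.Agent.R862.GC.Theta

/-!
Koszul cycles `b_{n-1,n}` of graph curves and families of vectors.
-/

set_option autoImplicit false

namespace Pool.Agent.R862.GC

open MvPolynomial

universe u

section Signs

variable {k : Type u} [Field k] {N : ℕ}

theorem card_filter_lt (τ : Finset (Fin N)) (x : Fin N) :
    ((τᶜ).filter (· < x)).card + (τ.filter (· < x)).card = x := by
  have h1 : (τᶜ).filter (· < x) ∪ τ.filter (· < x) = Finset.univ.filter (· < x) := by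
    ext y
    simp only [Finset.mem_union, Finset.mem_filter, Finset.mem_compl, Finset.mem_univ, true_and]
    tauto
  have h2 : Disjoint ((τᶜ).filter (· < x)) (τ.filter (· < x)) := by
    rw [Finset.disjoint_left]
    intro y hy hy'
    simp only [Finset.mem_filter, Finset.mem_compl] at hy hy'
    exact hy.1 hy'.1
  rw [← Finset.card_union_of_disjoint h2, h1]
  have h3 : Finset.univ.filter (· < x) = Finset.Iio x := by
    ext y
    simp
  rw [h3, Fin.card_Iio]

theorem sgn_compl {R : Type u} [CommRing R] (τ : Finset (Fin N)) (x : Fin N) :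
    (-1 : R) ^ ((τᶜ).filter (· < x)).card = (-1) ^ (x : ℕ) * (-1) ^ (τ.filter (· < x)).card := by
  have h := card_filter_lt τ x
  conv_rhs => rw [← h]
  rw [pow_add, mul_assoc, ← pow_add]
  have : (-1 : R) ^ ((τ.filter (· < x)).card + (τ.filter (· < x)).card) = 1 := by
    rw [← two_mul, pow_mul]
    simp
  rw [this, mul_one]

theorem koszulD_compl (I : Ideal (Pol k N)) (f : KChain I) (τ : Finset (Fin N)) :
    koszulD I f τᶜ = ∑ m ∈ τ, (-1) ^ (m : ℕ) * (-1) ^ (τ.filter (· < m)).card *
      (coordVar I m * f (τ.erase m)ᶜ) := by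
  rw [koszulD_apply]
  have h1 : Finset.univ.filter (fun m => m ∉ τᶜ) = τ := by
    ext y
    simp
  rw [h1]
  refine Finset.sum_congr rfl fun m hm => ?_
  have h2 : insert m τᶜ = (τ.erase m)ᶜ := by
    ext y
    simp only [Finset.mem_insert, Finset.mem_compl, Finset.mem_erase]
    tauto
  rw [h2, sgn_compl]

theorem koszulD_two (I : Ideal (Pol k N)) (f : KChain I) {a b : Fin N} (hab : a < b) :
    koszulD I f ({a, b} : Finset (Fin N))ᶜ =
      (-1) ^ (a : ℕ) * (coordVar I a * f {b}ᶜ) - (-1) ^ (b : ℕ) * (coordVar I b * f {a}ᶜ) := by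
  rw [koszulD_compl, Finset.sum_pair hab.ne]
  have h1 : ({a, b} : Finset (Fin N)).filter (· < a) = ∅ := by
    ext y
    simp only [Finset.mem_filter, Finset.mem_insert, Finset.mem_singleton, Finset.notMem_empty,
      iff_false, not_and, not_lt]
    rintro (rfl | rfl)
    · exact le_rfl
    · exact hab.le
  have h2 : ({a, b} : Finset (Fin N)).filter (· < b) = {a} := by
    ext y
    simp only [Finset.mem_filter, Finset.mem_insert, Finset.mem_singleton]
    constructor
    · rintro ⟨rfl | rfl, h⟩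
      · rfl
      · exact absurd h (lt_irrefl _)
    · rintro rfl
      exact ⟨Or.inl rfl, hab⟩
  have h3 : ({a, b} : Finset (Fin N)).erase a = {b} := by
    rw [Finset.erase_insert]
    simpa using hab.ne
  have h4 : ({a, b} : Finset (Fin N)).erase b = {a} := by
    rw [Finset.pair_comm, Finset.erase_insert]
    simpa using hab.ne'
  rw [h1, h2, h3, h4]
  simp only [Finset.card_empty, Finset.card_singleton, pow_zero, pow_one]
  ring

theorem koszulD_three (I : Ideal (Pol k N)) (f : KChain I) {a b c : Fin N} (hab : a < b)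
    (hbc : b < c) :
    koszulD I f ({a, b, c} : Finset (Fin N))ᶜ =
      (-1) ^ (a : ℕ) * (coordVar I a * f {b, c}ᶜ) - (-1) ^ (b : ℕ) * (coordVar I b * f {a, c}ᶜ)
      + (-1) ^ (c : ℕ) * (coordVar I c * f {a, b}ᶜ) := by
  have hac := hab.trans hbc
  rw [koszulD_compl, Finset.sum_insert (by simp [hab.ne, hac.ne]), Finset.sum_pair hbc.ne]
  have h1 : ({a, b, c} : Finset (Fin N)).filter (· < a) = ∅ := by
    ext y
    simp only [Finset.mem_filter, Finset.mem_insert, Finset.mem_singleton, Finset.notMem_empty,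
      iff_false, not_and, not_lt]
    rintro (rfl | rfl | rfl)
    · exact le_rfl
    · exact hab.le
    · exact hac.le
  have h2 : ({a, b, c} : Finset (Fin N)).filter (· < b) = {a} := by
    ext y
    simp only [Finset.mem_filter, Finset.mem_insert, Finset.mem_singleton]
    constructor
    · rintro ⟨rfl | rfl | rfl, h⟩
      · rfl
      · exact absurd h (lt_irrefl _)
      · exact absurd h hbc.not_gt
    · rintro rfl
      exact ⟨Or.inl rfl, hab⟩
  have h2' : ({a, b, c} : Finset (Fin N)).filter (· < c) = {a, b} := by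
    ext y
    simp only [Finset.mem_filter, Finset.mem_insert, Finset.mem_singleton]
    constructor
    · rintro ⟨rfl | rfl | rfl, h⟩
      · exact Or.inl rfl
      · exact Or.inr rfl
      · exact absurd h (lt_irrefl _)
    · rintro (rfl | rfl)
      · exact ⟨Or.inl rfl, hac⟩
      · exact ⟨Or.inr (Or.inl rfl), hbc⟩
  have h3 : ({a, b, c} : Finset (Fin N)).erase a = {b, c} := by
    rw [Finset.erase_insert]
    simp [hab.ne, hac.ne]
  have h4 : ({a, b, c} : Finset (Fin N)).erase b = {a, c} := by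
    rw [Finset.insert_comm, Finset.erase_insert]
    simp [hab.ne', hbc.ne]
  have h5 : ({a, b, c} : Finset (Fin N)).erase c = {a, b} := by
    have : ({a, b, c} : Finset (Fin N)) = {c, a, b} := by
      ext y; simp; tauto
    rw [this, Finset.erase_insert]
    simp [hac.ne', hbc.ne']
  rw [h1, h2, h2', h3, h4, h5]
  simp only [Finset.card_empty, Finset.card_singleton, pow_zero, pow_one,
    Finset.card_pair hab.ne]
  ring

end Signs

section Linear

variable {k : Type u} [Field k] {N : ℕ}

/-- the linear form of a functional -/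
noncomputable def form (φ : (Fin N → k) →ₗ[k] k) : Pol k N :=
  ∑ i, C (φ (Pi.single i 1)) * X i

theorem form_hom (φ : (Fin N → k) →ₗ[k] k) : (form φ).IsHomogeneous 1 := by
  refine IsHomogeneous.sum _ _ _ fun i _ => ?_
  have := (isHomogeneous_C (Fin N) (φ (Pi.single i 1))).mul (isHomogeneous_X k i)
  rwa [zero_add] at this

theorem eval_form (φ : (Fin N → k) →ₗ[k] k) (x : Fin N → k) : eval x (form φ) = φ x := by
  unfold form
  rw [map_sum]
  simp only [map_mul, eval_C, eval_X]
  conv_rhs => rw [pi_eq_sum_univ' x, map_sum]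
  refine Finset.sum_congr rfl fun i _ => ?_
  rw [map_smul, smul_eq_mul, mul_comm]

/-- linear forms are linear -/
theorem linear_of_hom {f : Pol k N} (hf : f.IsHomogeneous 1) :
    ∃ φ : (Fin N → k) →ₗ[k] k, ∀ x, eval x f = φ x := by
  have h : f ∈ homogeneousSubmodule (Fin N) k 1 := hf
  rw [homogeneousSubmodule_one_eq_span_X] at h
  clear hf
  induction h using Submodule.span_induction with
  | mem x hx =>
    obtain ⟨i, rfl⟩ := hx
    exact ⟨LinearMap.proj i, fun x => by simp⟩
  | zero => exact ⟨0, fun x => by simp⟩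
  | add f g _ _ h1 h2 =>
    obtain ⟨φ, hφ⟩ := h1
    obtain ⟨ψ, hψ⟩ := h2
    exact ⟨φ + ψ, fun x => by rw [map_add, hφ, hψ]; rfl⟩
  | smul c f _ h1 =>
    obtain ⟨φ, hφ⟩ := h1
    exact ⟨c • φ, fun x => by rw [smul_eval, hφ]; rfl⟩

variable {V : Type} (L : V → Submodule k (Fin N → k))

/-- evaluation at a point of the curve -/
noncomputable def evR (p : Σ u, L u) : CoordRing (vanIdeal L) →ₐ[k] k :=
  Ideal.Quotient.liftₐ (vanIdeal L) (aeval p.2.1) (fun f hf => by
    rw [aeval_eq_eval]
    exact hf p.1 p.2.1 p.2.2)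

theorem evR_mk (p : Σ u, L u) (f : Pol k N) : evR L p (toCoord _ f) = eval p.2.1 f := by
  have : evR L p (toCoord _ f) = aeval p.2.1 f := rfl
  rw [this, aeval_eq_eval]

theorem evR_var (p : Σ u, L u) (m : Fin N) : evR L p (coordVar _ m) = p.2.1 m := by
  unfold coordVar
  rw [evR_mk, eval_X]

theorem eq_zero_of_evR {r : CoordRing (vanIdeal L)} (h : ∀ p, evR L p r = 0) : r = 0 := by
  obtain ⟨f, rfl⟩ := Ideal.Quotient.mk_surjective r
  change toCoord _ f = 0
  rw [toCoord_eq_zero_iff]
  intro v x hx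
  have := h ⟨v, x, hx⟩
  rwa [show (Ideal.Quotient.mk (vanIdeal L) f : CoordRing (vanIdeal L)) = toCoord _ f from rfl,
    evR_mk] at this

theorem evR_linear {r : CoordRing (vanIdeal L)} (h : r ∈ quotDeg (vanIdeal L) 1) :
    ∃ φ : (Fin N → k) →ₗ[k] k, ∀ p, evR L p r = φ p.2.1 := by
  obtain ⟨f, hf, rfl⟩ := Submodule.mem_map.1 h
  obtain ⟨φ, hφ⟩ := linear_of_hom hf
  refine ⟨φ, fun p => ?_⟩
  rw [AlgHom.toLinearMap_apply, evR_mk, hφ]

theorem quotDeg_zero {I : Ideal (Pol k N)} {r : CoordRing I} (h : r ∈ quotDeg I 0) :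
    ∃ c : k, r = toCoord I (C c) := by
  obtain ⟨f, hf, rfl⟩ := Submodule.mem_map.1 h
  have hf' : f.IsHomogeneous 0 := hf
  rw [← totalDegree_zero_iff_isHomogeneous, totalDegree_eq_zero_iff_eq_C] at hf'
  refine ⟨coeff 0 f, ?_⟩
  rw [← hf']
  rfl

end Linear

end Pool.Agent.R862.GC
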