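import Mathlib
import Pool.Agent.R862.GC.Kos

/-!
Koszul cycles `b_{n-1,n}` of graph curves and families of vectors.
-/

set_option autoImplicit false

namespace Pool.Agent.R862.GC

open MvPolynomial

universe u

section Eval

variable {k : Type u} [Field k] {N : ℕ}

/-- signs -/
def sg (k : Type u) [Field k] {N : ℕ} (a b : Fin N) : k :=
  if a < b then (-1) ^ ((a : ℕ) + b) else if b < a then -(-1) ^ ((a : ℕ) + b) else 0

theorem sg_lt {a b : Fin N} (h : a < b) : sg k a b = (-1) ^ ((a : ℕ) + b) := if_pos h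

theorem sg_self (a : Fin N) : sg k a a = 0 := by simp [sg]

theorem sg_swap (a b : Fin N) : sg k b a = - sg k a b := by
  unfold sg
  rcases lt_trichotomy a b with h | h | h
  · rw [if_pos h, if_neg h.not_gt, if_pos h, add_comm]
  · subst h
    simp
  · rw [if_pos h, if_neg h.not_gt, if_pos h, neg_neg, add_comm]

theorem sg_sq {a b : Fin N} (h : a ≠ b) : sg k a b * sg k a b = 1 := by
  have h1 : ∀ n : ℕ, ((-1 : k) ^ n) * (-1) ^ n = 1 := by
    intro n
    rw [← pow_add, ← two_mul, pow_mul]
    simp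
  unfold sg
  rcases lt_or_gt_of_ne h with h | h
  · rw [if_pos h, h1]
  · rw [if_neg h.not_gt, if_pos h, neg_mul_neg, h1]

theorem sg_ne {a b : Fin N} (h : a ≠ b) : sg k a b ≠ 0 := by
  intro h0
  have := sg_sq (k := k) h
  rw [h0, zero_mul] at this
  exact zero_ne_one this

variable {V : Type} (L : V → Submodule k (Fin N → k))

/-- evaluation of a chain -/
noncomputable def evE : KChain (vanIdeal L) →ₗ[k] ((Σ u, L u) → Fin N → Fin N → k) where
  toFun f p a b := sg k a b * evR L p (f ({a, b} : Finset (Fin N))ᶜ)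
  map_add' f g := by
    funext p a b
    simp only [Pi.add_apply, map_add, mul_add]
  map_smul' c f := by
    funext p a b
    simp only [Pi.smul_apply, map_smul, smul_eq_mul, RingHom.id_apply]
    ring

theorem evE_apply (f : KChain (vanIdeal L)) (p : Σ u, L u) (a b : Fin N) :
    evE L f p a b = sg k a b * evR L p (f ({a, b} : Finset (Fin N))ᶜ) := rfl

/-- the bivectors `x ∧ w_u` -/
def evA : (V → Fin N → k) →ₗ[k] ((Σ u, L u) → Fin N → Fin N → k) where
  toFun w p a b := p.2.1 a * w p.1 b - p.2.1 b * w p.1 a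
  map_add' w w' := by
    funext p a b
    simp only [Pi.add_apply]
    ring
  map_smul' c w := by
    funext p a b
    simp only [Pi.smul_apply, smul_eq_mul, RingHom.id_apply]
    ring

theorem evA_apply (w : V → Fin N → k) (p : Σ u, L u) (a b : Fin N) :
    evA L w p a b = p.2.1 a * w p.1 b - p.2.1 b * w p.1 a := rfl

variable {L}

/-- a basis of a plane -/
theorem exists_basis {P : Submodule k (Fin N → k)} (h : Module.finrank k P = 2) :
    ∃ e f : Fin N → k, e ∈ P ∧ f ∈ P ∧ LinearIndependent k ![e, f] ∧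
      ∀ x ∈ P, ∃ α β : k, x = α • e + β • f := by
  let b : Module.Basis (Fin 2) k P := Module.finBasisOfFinrankEq k P h
  refine ⟨b 0, b 1, (b 0).2, (b 1).2, ?_, fun x hx => ?_⟩
  · have h1 := b.linearIndependent.map' P.subtype (Submodule.ker_subtype P)
    have h2 : (P.subtype ∘ b) = ![(b 0 : Fin N → k), (b 1 : Fin N → k)] := by
      funext i
      fin_cases i <;> rfl
    rwa [h2] at h1
  · have h1 := b.sum_repr ⟨x, hx⟩
    rw [Fin.sum_univ_two] at h1
    have h2 := congrArg Subtype.val h1
    exact ⟨_, _, h2.symm⟩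

theorem evA_inj (hdim : ∀ v, Module.finrank k (L v) = 2) : Function.Injective (evA L) := by
  rw [← LinearMap.ker_eq_bot, LinearMap.ker_eq_bot']
  intro w hw
  funext u
  obtain ⟨e, f, he, hf, hli, -⟩ := exists_basis (hdim u)
  refine wedge_plane hli (fun a b => ?_) (fun a b => ?_)
  · exact congrFun (congrFun (congrFun hw ⟨u, e, he⟩) a) b
  · exact congrFun (congrFun (congrFun hw ⟨u, f, hf⟩) a) b

theorem compl_of_card {m : ℕ} {σ : Finset (Fin (m + 2))} (h : σ.card = m) :
    ∃ a b, a < b ∧ σ = ({a, b} : Finset (Fin (m + 2)))ᶜ := by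
  have h1 : σᶜ.card = 2 := by
    rw [Finset.card_compl, Fintype.card_fin]
    omega
  obtain ⟨a, b, hab, h2⟩ := Finset.card_eq_two.1 h1
  rcases lt_or_gt_of_ne hab with h3 | h3
  · exact ⟨a, b, h3, by rw [← h2, compl_compl]⟩
  · exact ⟨b, a, h3, by rw [Finset.pair_comm, ← h2, compl_compl]⟩

theorem card_compl_pair {m : ℕ} {a b : Fin (m + 2)} (h : a ≠ b) :
    (({a, b} : Finset (Fin (m + 2)))ᶜ).card = m := by
  rw [Finset.card_compl, Fintype.card_fin, Finset.card_pair h]
  omega

theorem evE_inj {m : ℕ} {L : V → Submodule k (Fin (m + 2) → k)} {f : KChain (vanIdeal L)}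
    (hf : f ∈ koszulChains (vanIdeal L) m (m + 1)) (h : evE L f = 0) : f = 0 := by
  funext σ
  by_cases hσ : σ.card = m
  · obtain ⟨a, b, hab, rfl⟩ := compl_of_card hσ
    apply eq_zero_of_evR
    intro p
    have h1 := congrFun (congrFun (congrFun h p) a) b
    rw [evE_apply] at h1
    exact (mul_eq_zero.1 h1).resolve_left (sg_ne hab.ne)
  · exact hf.2 σ (fun h => hσ h.1)

/-- the alternating sum for three indices -/
theorem three_of_lt {ω : Fin N → Fin N → k} {x : Fin N → k} (hs : ∀ a b, ω b a = - ω a b)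
    (h0 : ∀ a, ω a a = 0)
    (h : ∀ a b c, a < b → b < c → x a * ω b c - x b * ω a c + x c * ω a b = 0) (a b c : Fin N) :
    x a * ω b c - x b * ω a c + x c * ω a b = 0 := by
  rcases lt_trichotomy a b with h1 | rfl | h1
  · rcases lt_trichotomy b c with h2 | rfl | h2
    · exact h a b c h1 h2
    · rw [h0 b]; ring
    · rcases lt_trichotomy a c with h3 | rfl | h3
      · have := h a c b h3 h2
        rw [hs c b]
        linear_combination -this
      · rw [h0 a, hs a b]; ring
      · have := h c a b h3 h1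
        rw [hs c b, hs c a]
        linear_combination this
  · rw [h0 a]; ring
  · rcases lt_trichotomy a c with h2 | rfl | h2
    · have := h b a c h1 h2
      rw [hs b a]
      linear_combination -this
    · rw [h0 a, hs b a]; ring
    · rcases lt_trichotomy b c with h3 | rfl | h3
      · have := h b c a h3 h2
        rw [hs c a, hs b a]
        linear_combination this
      · rw [h0 b]; ring
      · have := h c b a h3 h1
        rw [hs c b, hs c a, hs b a]
        linear_combination -this

end Eval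

section Main

variable {k : Type u} [Field k] {m : ℕ} {V : Type} {L : V → Submodule k (Fin (m + 2) → k)}

theorem evE_swap (f : KChain (vanIdeal L)) (p : Σ u, L u) (a b : Fin (m + 2)) :
    evE L f p b a = - evE L f p a b := by
  rw [evE_apply, evE_apply, sg_swap a b, Finset.pair_comm b a]
  ring

theorem evE_self (f : KChain (vanIdeal L)) (p : Σ u, L u) (a : Fin (m + 2)) :
    evE L f p a a = 0 := by
  rw [evE_apply, sg_self, zero_mul]

theorem neg_one_pow_sq (n : ℕ) : ((-1 : k) ^ n) ^ 2 = 1 := by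
  rw [← pow_mul, mul_comm, pow_mul]
  simp

/-- the alternating sum of a chain as the value of the differential -/
theorem evE_three (f : KChain (vanIdeal L)) (p : Σ u, L u) {a b c : Fin (m + 2)} (hab : a < b)
    (hbc : b < c) :
    p.2.1 a * evE L f p b c - p.2.1 b * evE L f p a c + p.2.1 c * evE L f p a b =
      (-1) ^ ((a : ℕ) + b + c) *
        evR L p (koszulD (vanIdeal L) f ({a, b, c} : Finset (Fin (m + 2)))ᶜ) := by
  rw [koszulD_three _ _ hab hbc, evE_apply, evE_apply, evE_apply, sg_lt hab, sg_lt hbc,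
    sg_lt (hab.trans hbc)]
  simp only [map_add, map_sub, map_mul, map_pow, map_neg, map_one, evR_var, pow_add]
  have ha := neg_one_pow_sq (k := k) (a : ℕ)
  have hb := neg_one_pow_sq (k := k) (b : ℕ)
  have hc := neg_one_pow_sq (k := k) (c : ℕ)
  linear_combination
    -((-1 : k) ^ (b : ℕ) * (-1) ^ (c : ℕ) * p.2.1 a * evR L p (f ({b, c} : Finset (Fin (m + 2)))ᶜ)) * ha
    + ((-1 : k) ^ (a : ℕ) * (-1) ^ (c : ℕ) * p.2.1 b * evR L p (f ({a, c} : Finset (Fin (m + 2)))ᶜ)) * hb
    - ((-1 : k) ^ (a : ℕ) * (-1) ^ (b : ℕ) * p.2.1 c * evR L p (f ({a, b} : Finset (Fin (m + 2)))ᶜ)) * hc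

theorem chain_val {f : KChain (vanIdeal L)} (hf : f ∈ koszulChains (vanIdeal L) m (m + 1))
    (σ : Finset (Fin (m + 2))) : f σ ∈ quotDeg (vanIdeal L) 1 := by
  have := isKoszulChain_mem hf σ
  rwa [show m + 1 - m = 1 by omega] at this

variable [DecidableEq V] {G : SimpleGraph V}

theorem cycle_mem (hL : Lines G L) {f : KChain (vanIdeal L)}
    (hf : f ∈ koszulCycles (vanIdeal L) m (m + 1)) : ∃ w ∈ Fam G L, evA L w = evE L f := by
  classical
  have hch := hf.1
  have hker : koszulD (vanIdeal L) f = 0 := hf.2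
  have hval := chain_val hch
  choose Φ hΦ using fun σ => evR_linear L (hval σ)
  have hthree : ∀ (p : Σ u, L u) (a b c : Fin (m + 2)),
      p.2.1 a * evE L f p b c - p.2.1 b * evE L f p a c + p.2.1 c * evE L f p a b = 0 := by
    intro p
    refine three_of_lt (evE_swap f p) (evE_self f p) fun a b c hab hbc => ?_
    rw [evE_three f p hab hbc, hker]
    simp
  have hlin : ∀ u (x : L u) a b, evE L f ⟨u, x⟩ a b =
      sg k a b * Φ ({a, b} : Finset (Fin (m + 2)))ᶜ x.1 := by
    intro u x a b
    rw [evE_apply, hΦ]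
  have hw : ∀ u, ∃ w : Fin (m + 2) → k, ∀ x : L u, ∀ a b,
      evE L f ⟨u, x⟩ a b = x.1 a * w b - x.1 b * w a := by
    intro u
    obtain ⟨e, g, he, hg, hli, hspan⟩ := exists_basis (hL.dim u)
    obtain ⟨w, hw1, hw2⟩ := exists_vector hli
      (ωe := fun a b => evE L f ⟨u, e, he⟩ a b) (ωf := fun a b => evE L f ⟨u, g, hg⟩ a b)
      (hthree ⟨u, e, he⟩) (hthree ⟨u, g, hg⟩) (by
        intro a b c
        have := hthree ⟨u, e + g, (L u).add_mem he hg⟩ a b c
        simp only [hlin, map_add, Pi.add_apply] at this ⊢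
        linear_combination this)
    refine ⟨w, fun x a b => ?_⟩
    obtain ⟨α, β, hx⟩ := hspan x.1 x.2
    have h1 := hw1 a b
    have h2 := hw2 a b
    rw [hlin] at h1 h2 ⊢
    rw [hx]
    simp only [map_add, map_smul, smul_eq_mul, Pi.add_apply, Pi.smul_apply]
    linear_combination α * h1 + β * h2
  choose w hw using hw
  refine ⟨w, ?_, ?_⟩
  · intro u v huv
    obtain ⟨p, hp, hpu, hpv⟩ := hL.meet u v huv
    have h1 : ∀ a b, p a * (w u - w v) b - p b * (w u - w v) a = 0 := by
      intro a b
      have e1 := hw u ⟨p, hpu⟩ a b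
      have e2 := hw v ⟨p, hpv⟩ a b
      rw [hlin] at e1 e2
      simp only [Pi.sub_apply]
      linear_combination e2 - e1
    obtain ⟨c, hc⟩ := wedge_zero hp h1
    rw [hc]
    exact ⟨(L u).smul_mem c hpu, (L v).smul_mem c hpv⟩
  · funext p a b
    rw [evA_apply]
    exact (hw p.1 p.2 a b).symm

/-- chains with prescribed values -/
theorem exists_chain {I : Ideal (Pol k (m + 2))} (F : Fin (m + 2) → Fin (m + 2) → CoordRing I)
    (hF : ∀ a b, F a b ∈ quotDeg I 1) :
    ∃ f ∈ koszulChains I m (m + 1), ∀ a b, a < b →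
      f ({a, b} : Finset (Fin (m + 2)))ᶜ = F a b := by
  classical
  have hex : ∀ σ : Finset (Fin (m + 2)), ∃ r : CoordRing I,
      (∀ a b, a < b → σ = ({a, b} : Finset (Fin (m + 2)))ᶜ → r = F a b) ∧
      ((¬ ∃ a b, a < b ∧ σ = ({a, b} : Finset (Fin (m + 2)))ᶜ) → r = 0) := by
    intro σ
    by_cases h : ∃ a b, a < b ∧ σ = ({a, b} : Finset (Fin (m + 2)))ᶜ
    · obtain ⟨a, b, hab, rfl⟩ := h
      refine ⟨F a b, fun a' b' hab' h' => ?_, fun h' => absurd ⟨a, b, hab, rfl⟩ h'⟩
      have h1 : ({a, b} : Finset (Fin (m + 2))) = {a', b'} := compl_injective h'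
      have h2 : a ∈ ({a', b'} : Finset (Fin (m + 2))) := by rw [← h1]; simp
      have h3 : b ∈ ({a', b'} : Finset (Fin (m + 2))) := by rw [← h1]; simp
      rw [Finset.mem_insert, Finset.mem_singleton] at h2 h3
      rcases h2 with rfl | rfl
      · rcases h3 with rfl | rfl
        · exact absurd hab (lt_irrefl _)
        · rfl
      · rcases h3 with rfl | rfl
        · exact absurd hab hab'.not_gt
        · exact absurd hab (lt_irrefl _)
    · exact ⟨0, fun a b hab h' => absurd ⟨a, b, hab, h'⟩ h, fun _ => rfl⟩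
  choose f hf1 hf2 using hex
  refine ⟨f, ⟨fun σ h _ => ?_, fun σ h => ?_⟩, fun a b hab => hf1 _ a b hab rfl⟩
  · obtain ⟨a, b, hab, rfl⟩ := compl_of_card h
    rw [hf1 _ a b hab rfl, show m + 1 - m = 1 by omega]
    exact hF a b
  · apply hf2
    rintro ⟨a, b, hab, rfl⟩
    exact h ⟨card_compl_pair hab.ne, by omega⟩

theorem fam_mem (hL : Lines G L) [Fintype V] (hG : Degen G) (hQ : Q G L Finset.univ)
    {w : V → Fin (m + 2) → k} (hw : w ∈ Fam G L) :
    ∃ f ∈ koszulCycles (vanIdeal L) m (m + 1), evE L f = evA L w := by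
  classical
  -- the functionals
  have hφ : ∀ a b : Fin (m + 2), ∃ φ : (Fin (m + 2) → k) →ₗ[k] k, ∀ u, ∀ x ∈ L u,
      φ x = x a * w u b - x b * w u a := by
    intro a b
    obtain ⟨φ, hφ⟩ := extend hL hG Finset.univ hQ
      (fun u => (w u b) • (LinearMap.proj a : (Fin (m + 2) → k) →ₗ[k] k) -
        (w u a) • (LinearMap.proj b : (Fin (m + 2) → k) →ₗ[k] k)) (by
        intro u _ v _ huv x hxu hxv
        obtain ⟨p, hp, hpu, hpv⟩ := hL.meet u v huv
        have h1 := hw u v huv
        obtain ⟨c, hc⟩ := inter_mul hL huv.ne hp hpu hpv h1.1 h1.2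
        obtain ⟨d, hd⟩ := inter_mul hL huv.ne hp hpu hpv hxu hxv
        have ha : w u a = w v a + c * p a := by
          have := congrFun hc a
          simp only [Pi.sub_apply, Pi.smul_apply, smul_eq_mul] at this
          linear_combination this
        have hb : w u b = w v b + c * p b := by
          have := congrFun hc b
          simp only [Pi.sub_apply, Pi.smul_apply, smul_eq_mul] at this
          linear_combination this
        simp only [LinearMap.sub_apply, LinearMap.smul_apply, LinearMap.proj_apply, smul_eq_mul,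
          ha, hb, hd, Pi.smul_apply]
        ring)
    refine ⟨φ, fun u x hx => ?_⟩
    rw [hφ u (Finset.mem_univ _) x hx]
    simp only [LinearMap.sub_apply, LinearMap.smul_apply, LinearMap.proj_apply, smul_eq_mul]
    ring
  choose φ hφ using hφ
  obtain ⟨f, hf, hfv⟩ := exists_chain (I := vanIdeal L)
    (fun a b => toCoord _ (C (sg k a b)) * toCoord _ (form (φ a b))) (fun a b => by
      rw [← map_mul]
      apply mk_mem_quotDeg
      have := (isHomogeneous_C (Fin (m + 2)) (sg k a b)).mul (form_hom (φ a b))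
      rwa [zero_add] at this)
  have hE : evE L f = evA L w := by
    funext p a b
    have key : ∀ a b : Fin (m + 2), a < b → evE L f p a b = evA L w p a b := by
      intro a b hab
      rw [evE_apply, evA_apply, hfv a b hab, map_mul, evR_mk, evR_mk, eval_C, eval_form,
        hφ a b p.1 p.2.1 p.2.2, ← mul_assoc, sg_sq hab.ne, one_mul]
    rcases lt_trichotomy a b with h | rfl | h
    · exact key a b h
    · rw [evE_self, evA_apply]
      ring
    · rw [evE_swap, key b a h, evA_apply, evA_apply]
      ring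
  refine ⟨f, ⟨hf, ?_⟩, hE⟩
  change koszulD (vanIdeal L) f = 0
  funext τ
  rw [Pi.zero_apply]
  by_cases hτ : (τᶜ).card = 3
  · obtain ⟨a, b, c, hab, hac, hbc, h3⟩ := Finset.card_eq_three.1 hτ
    have hτ' : τ = ({a, b, c} : Finset (Fin (m + 2)))ᶜ := by rw [← h3, compl_compl]
    -- sort
    obtain ⟨a, b, c, hab, hbc, rfl⟩ : ∃ a b c : Fin (m + 2), a < b ∧ b < c ∧
        τ = ({a, b, c} : Finset (Fin (m + 2)))ᶜ := by
      rcases lt_or_gt_of_ne hab with h1 | h1
      · rcases lt_or_gt_of_ne hbc with h2 | h2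
        · exact ⟨a, b, c, h1, h2, hτ'⟩
        · rcases lt_or_gt_of_ne hac with h4 | h4
          · refine ⟨a, c, b, h4, h2, ?_⟩
            rw [hτ']; congr 1; ext y; simp; tauto
          · refine ⟨c, a, b, h4, h1, ?_⟩
            rw [hτ']; congr 1; ext y; simp; tauto
      · rcases lt_or_gt_of_ne hac with h2 | h2
        · refine ⟨b, a, c, h1, h2, ?_⟩
          rw [hτ']; congr 1; ext y; simp; tauto
        · rcases lt_or_gt_of_ne hbc with h4 | h4
          · refine ⟨b, c, a, h4, h2, ?_⟩
            rw [hτ']; congr 1; ext y; simp; tauto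
          · refine ⟨c, b, a, h4, h1, ?_⟩
            rw [hτ']; congr 1; ext y; simp; tauto
    apply eq_zero_of_evR
    intro p
    have h1 := evE_three f p hab hbc
    rw [hE] at h1
    simp only [evA_apply] at h1
    have h2 : (-1 : k) ^ ((a : ℕ) + b + c) ≠ 0 := pow_ne_zero _ (by simp)
    apply (mul_eq_zero.1 (h1.symm.trans _)).resolve_left h2
    ring
  · rw [koszulD_apply]
    apply Finset.sum_eq_zero
    intro x hx
    have hx' : x ∉ τ := by simpa using hx
    rw [hf.2 (insert x τ), mul_zero, mul_zero]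
    rintro ⟨h1, -⟩
    apply hτ
    rw [Finset.card_insert_of_notMem hx'] at h1
    rw [Finset.card_compl, Fintype.card_fin]
    omega

end Main

end Pool.Agent.R862.GC
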