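import Mathlib
import Pool.Agent.R862.GC.Kos2

/-!
`b_{n-1,n}` of a graph curve is the number of bridges.
-/

set_option autoImplicit false

namespace Pool.Agent.R862.GC

open MvPolynomial

universe u

section Bd

variable {k : Type u} [Field k] {m : ℕ} {V : Type} {L : V → Submodule k (Fin (m + 2) → k)}

theorem card_compl_single (a : Fin (m + 2)) : (({a} : Finset (Fin (m + 2)))ᶜ).card = m + 1 := by
  rw [Finset.card_compl, Fintype.card_fin, Finset.card_singleton]
  omega

theorem bd_val {h : KChain (vanIdeal L)} (hh : h ∈ koszulChains (vanIdeal L) (m + 1) (m + 1)) :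
    ∃ c : Fin (m + 2) → k, ∀ a, h ({a} : Finset (Fin (m + 2)))ᶜ = toCoord _ (C (c a)) := by
  have h1 : ∀ a, h ({a} : Finset (Fin (m + 2)))ᶜ ∈ quotDeg (vanIdeal L) 0 := by
    intro a
    have := isKoszulChain_mem hh ({a} : Finset (Fin (m + 2)))ᶜ
    rwa [Nat.sub_self] at this
  choose c hc using fun a => quotDeg_zero (h1 a)
  exact ⟨c, hc⟩

theorem evE_bd {h : KChain (vanIdeal L)} {c : Fin (m + 2) → k}
    (hc : ∀ a, h ({a} : Finset (Fin (m + 2)))ᶜ = toCoord _ (C (c a))) :
    evE L (koszulD (vanIdeal L) h) = evA L (fun _ a => (-1) ^ (a : ℕ) * c a) := by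
  funext p a b
  have key : ∀ a b : Fin (m + 2), a < b → evE L (koszulD (vanIdeal L) h) p a b =
      evA L (fun _ a => (-1) ^ (a : ℕ) * c a) p a b := by
    intro a b hab
    rw [evE_apply, evA_apply, koszulD_two _ _ hab, sg_lt hab, hc, hc]
    simp only [map_sub, map_mul, map_pow, map_neg, map_one, evR_var, evR_mk, eval_C, pow_add]
    have ha := neg_one_pow_sq (k := k) (a : ℕ)
    have hb := neg_one_pow_sq (k := k) (b : ℕ)
    linear_combination ((-1 : k) ^ (b : ℕ) * p.2.1 a * c b) * ha -
      ((-1 : k) ^ (a : ℕ) * p.2.1 b * c a) * hb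
  rcases lt_trichotomy a b with h | rfl | h
  · exact key a b h
  · rw [evE_self, evA_apply]
    ring
  · rw [evE_swap, key b a h, evA_apply, evA_apply]
    ring

theorem bd_chain {h : KChain (vanIdeal L)}
    (hh : h ∈ koszulChains (vanIdeal L) (m + 1) (m + 1)) :
    koszulD (vanIdeal L) h ∈ koszulChains (vanIdeal L) m (m + 1) := by
  refine ⟨fun σ hσ _ => ?_, fun σ hσ => ?_⟩
  · rw [koszulD_apply, show m + 1 - m = 1 by omega]
    refine Submodule.sum_mem _ fun x _ => ?_
    have h1 := isKoszulChain_mem hh (insert x σ)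
    rw [Nat.sub_self] at h1
    obtain ⟨c, hc⟩ := quotDeg_zero h1
    rw [hc]
    have h2 : (-1 : CoordRing (vanIdeal L)) ^ (σ.filter (· < x)).card *
        (coordVar _ x * toCoord _ (C c)) =
        toCoord _ (C ((-1) ^ (σ.filter (· < x)).card * c) * X x) := by
      unfold coordVar
      simp only [map_mul, map_pow, map_neg, map_one]
      ring
    rw [h2]
    apply mk_mem_quotDeg
    have := (isHomogeneous_C (Fin (m + 2)) ((-1) ^ (σ.filter (· < x)).card * c)).mul
      (isHomogeneous_X k x)
    rwa [zero_add] at this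
  · rw [koszulD_apply]
    apply Finset.sum_eq_zero
    intro x hx
    have hx' : x ∉ σ := by simpa using hx
    rw [hh.2 (insert x σ), mul_zero, mul_zero]
    rintro ⟨h1, -⟩
    rw [Finset.card_insert_of_notMem hx'] at h1
    exact hσ ⟨by omega, by omega⟩

theorem exists_bd (I : Ideal (Pol k (m + 2))) (c : Fin (m + 2) → k) :
    ∃ h ∈ koszulChains I (m + 1) (m + 1),
      ∀ a, h ({a} : Finset (Fin (m + 2)))ᶜ = toCoord _ (C (c a)) := by
  classical
  have hex : ∀ σ : Finset (Fin (m + 2)), ∃ r : CoordRing I,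
      (∀ a, σ = ({a} : Finset (Fin (m + 2)))ᶜ → r = toCoord _ (C (c a))) ∧
      ((¬ ∃ a, σ = ({a} : Finset (Fin (m + 2)))ᶜ) → r = 0) := by
    intro σ
    by_cases h : ∃ a, σ = ({a} : Finset (Fin (m + 2)))ᶜ
    · obtain ⟨a, rfl⟩ := h
      refine ⟨toCoord _ (C (c a)), fun a' h' => ?_, fun h' => absurd ⟨a, rfl⟩ h'⟩
      have h1 : ({a} : Finset (Fin (m + 2))) = {a'} := compl_injective h'
      rw [Finset.singleton_inj.1 h1]
    · exact ⟨0, fun a h' => absurd ⟨a, h'⟩ h, fun _ => rfl⟩
  choose h hh1 hh2 using hex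
  refine ⟨h, ⟨fun σ hσ _ => ?_, fun σ hσ => ?_⟩, fun a => hh1 _ a rfl⟩
  · have h1 : σᶜ.card = 1 := by
      rw [Finset.card_compl, Fintype.card_fin]
      omega
    obtain ⟨a, ha⟩ := Finset.card_eq_one.1 h1
    rw [hh1 σ a (by rw [← ha, compl_compl]), Nat.sub_self]
    exact mk_mem_quotDeg _ _ _ (isHomogeneous_C _ _)
  · apply hh2
    rintro ⟨a, rfl⟩
    exact hσ ⟨card_compl_single a, le_rfl⟩

variable [Fintype V] [DecidableEq V] {G : SimpleGraph V}

theorem betti_eq (hL : Lines G L) (hG : Degen G) (hQ : Q G L Finset.univ)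
    (hconn : G.Connected) :
    betti (vanIdeal L) m (m + 1) = (bridges G).ncard := by
  classical
  set I := vanIdeal L with hI
  let E' : CycleSpace I m (m + 1) →ₗ[k] ((Σ u, L u) → Fin (m + 2) → Fin (m + 2) → k) :=
    evE L ∘ₗ cycleIncl I m (m + 1)
  have hE'inj : Function.Injective E' := by
    rw [← LinearMap.ker_eq_bot, LinearMap.ker_eq_bot']
    intro z hz
    have h1 : cycleIncl I m (m + 1) z = 0 := evE_inj z.2.1 hz
    exact Subtype.ext h1
  have hAinj : Function.Injective (evA L) := evA_inj hL.dim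
  have hrange : LinearMap.range E' = (Fam G L).map (evA L) := by
    ext y
    constructor
    · rintro ⟨z, rfl⟩
      obtain ⟨w, hw, h⟩ := cycle_mem hL z.2
      exact ⟨w, hw, h⟩
    · rintro ⟨w, hw, rfl⟩
      obtain ⟨f, hf, h⟩ := fam_mem hL hG hQ hw
      exact ⟨⟨f, hf⟩, h⟩
  let cst : (Fin (m + 2) → k) →ₗ[k] (V → Fin (m + 2) → k) :=
    { toFun := fun x _ => x
      map_add' := fun x y => rfl
      map_smul' := fun c x => rfl }
  have hcstinj : Function.Injective cst := by
    intro x y hxy
    obtain ⟨v0⟩ := hconn.nonempty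
    exact congrFun hxy v0
  have hcstFam : ∀ x, cst x ∈ Fam G L := by
    intro x u v _
    have : cst x u - cst x v = 0 := sub_self _
    rw [this]
    exact Submodule.zero_mem _
  have hbd : (boundariesIn I m (m + 1)).map E' = LinearMap.range (evA L ∘ₗ cst) := by
    ext y
    constructor
    · rintro ⟨z, hz, rfl⟩
      obtain ⟨h, hh, hzz⟩ := hz
      obtain ⟨c, hc⟩ := bd_val hh
      refine ⟨fun a => (-1) ^ (a : ℕ) * c a, ?_⟩
      have h1 := evE_bd hc
      have h2 : E' z = evE L (koszulD I h) := congrArg (evE L) hzz.symm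
      rw [h2, h1]
      rfl
    · rintro ⟨c, rfl⟩
      obtain ⟨h, hh, hc⟩ := exists_bd I (fun a => (-1) ^ (a : ℕ) * c a)
      have h1 := evE_bd hc
      have h2 : (fun (_ : V) (a : Fin (m + 2)) => (-1 : k) ^ (a : ℕ) * ((-1) ^ (a : ℕ) * c a)) =
          cst c := by
        funext v a
        change _ = c a
        have := neg_one_pow_sq (k := k) (a : ℕ)
        linear_combination (c a) * this
      rw [h2] at h1
      have h3 : evA L (cst c) ∈ LinearMap.range E' := by
        rw [hrange]
        exact ⟨cst c, hcstFam c, rfl⟩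
      obtain ⟨z, hz⟩ := h3
      refine ⟨z, ?_, hz⟩
      refine ⟨h, hh, ?_⟩
      have h4 : koszulD I h - cycleIncl I m (m + 1) z = 0 := by
        apply evE_inj (L := L) (Submodule.sub_mem _ (bd_chain hh) z.2.1)
        rw [map_sub, h1, sub_eq_zero]
        exact hz.symm
      exact sub_eq_zero.1 h4
  have : Module.Finite k (CycleSpace I m (m + 1)) := koszulCycles_fin I m (m + 1)
  have hfin1 : Module.finrank k (CycleSpace I m (m + 1)) =
      (m + 2) + (bridges G).ncard := by
    rw [← LinearMap.finrank_range_of_inj hE'inj, hrange,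
      ← LinearEquiv.finrank_eq (Submodule.equivMapOfInjective (evA L) hAinj (Fam G L)),
      finrank_Fam hL hG hQ hconn, Module.finrank_fintype_fun_eq_card, Fintype.card_fin]
  have hcomp : Function.Injective (evA L ∘ₗ cst) := by
    rw [LinearMap.coe_comp]
    exact hAinj.comp hcstinj
  have hfin2 : Module.finrank k (boundariesIn I m (m + 1)) = m + 2 := by
    rw [LinearEquiv.finrank_eq (Submodule.equivMapOfInjective E' hE'inj (boundariesIn I m (m + 1))),
      hbd, LinearMap.finrank_range_of_inj hcomp,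
      Module.finrank_fintype_fun_eq_card, Fintype.card_fin]
  have hq := Submodule.finrank_quotient_add_finrank (boundariesIn I m (m + 1))
  have hb : betti I m (m + 1) =
      Module.finrank k (CycleSpace I m (m + 1) ⧸ boundariesIn I m (m + 1)) := rfl
  rw [hb]
  omega

end Bd

section Final

variable {k : Type u} [Field k] {V : Type} {G : SimpleGraph V} {n : ℕ}
  {L : V → Submodule k (Fin (n + 1) → k)}

theorem lines_of_curve (h : IsGraphCurve G L) : Lines G L where
  dim := h.line
  inj := h.inj
  meet := fun v w hvw => (h.meet v w hvw.ne).2 hvw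
  triple := by
    intro x y z hxy hxz hyz p hx hy hz
    by_contra hp
    exact h.noTriple x y z hxy hxz hyz ⟨p, hp, hx, hy, hz⟩

variable [Fintype V] [DecidableEq V]

theorem degIn_univ [DecidableRel G.Adj] (x : V) : degIn G Finset.univ x = G.degree x := by
  classical
  unfold degIn
  rw [← SimpleGraph.card_neighborFinset_eq_degree]
  congr 1
  ext y
  simp

theorem degen_of [DecidableRel G.Adj] (hconn : G.Connected) (h3 : ∀ v, G.degree v ≤ 3)
    (hlt : ∃ v, G.degree v < 3) : Degen G := by
  classical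
  intro T hT
  by_contra hcon
  push Not at hcon
  -- all neighbours of a vertex of `T` lie in `T`
  have hclosed : ∀ x ∈ T, ∀ y, G.Adj x y → y ∈ T := by
    intro x hx y hxy
    have h1 := hcon x hx
    unfold degIn at h1
    have h2 : T.filter (fun y => G.Adj x y) ⊆ G.neighborFinset x := by
      intro z hz
      rw [SimpleGraph.mem_neighborFinset]
      exact (Finset.mem_filter.1 hz).2
    have h4 : T.filter (fun y => G.Adj x y) = G.neighborFinset x := by
      apply Finset.eq_of_subset_of_card_le h2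
      rw [SimpleGraph.card_neighborFinset_eq_degree]
      have := h3 x
      have h5 : 2 < (T.filter (fun y => G.Adj x y)).card := by
        refine lt_of_lt_of_eq h1 ?_
        congr
      omega
    have h5 : y ∈ T.filter (fun y => G.Adj x y) := by
      rw [h4, SimpleGraph.mem_neighborFinset]
      exact hxy
    exact (Finset.mem_filter.1 h5).1
  obtain ⟨x0, hx0⟩ := hT
  have hall : ∀ y, y ∈ T := by
    intro y
    obtain ⟨p⟩ := hconn.preconnected x0 y
    induction p with
    | nil => exact hx0
    | cons hadj _ ih => exact ih (hclosed _ hx0 _ hadj)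
  obtain ⟨v, hv⟩ := hlt
  have h1 := hcon v (hall v)
  have h2 : T = Finset.univ := Finset.eq_univ_iff_forall.2 hall
  rw [h2, degIn_univ] at h1
  omega

theorem m2_univ : m2 G Finset.univ = 2 * G.edgeSet.ncard := by
  classical
  unfold m2
  have h := G.sum_degrees_eq_twice_card_edges
  have h2 : G.edgeSet.ncard = G.edgeFinset.card := by
    rw [← SimpleGraph.coe_edgeFinset, Set.ncard_coe_finset]
  rw [h2, ← h]
  exact Finset.sum_congr rfl fun x _ => degIn_univ x

theorem Q_of_curve (h : IsGraphCurve G L) (hn : (n : ℤ) = Nat.card V - genus G) :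
    Q G L Finset.univ := by
  unfold Q
  rw [m2_univ]
  have h1 : WT L Finset.univ = ⊤ := by
    unfold WT
    rw [← h.span]
    simp
  rw [h1, finrank_top, Module.finrank_fintype_fun_eq_card, Fintype.card_fin,
    Finset.card_univ, ← Nat.card_eq_fintype_card]
  unfold genus at hn
  omega

/-- **The Betti number `b_{n-1,n}` is the number of bridges.** -/
theorem betti_bridges [DecidableRel G.Adj] (hconn : G.Connected) (h3 : ∀ v, G.degree v ≤ 3)
    (hlt : ∃ v, G.degree v < 3) (h : IsGraphCurve G L)
    (hn : (n : ℤ) = Nat.card V - genus G) :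
    betti (vanIdeal L) (n - 1) n = (bridges G).ncard := by
  have hL := lines_of_curve h
  have hG := degen_of hconn h3 hlt
  have hQ := Q_of_curve h hn
  have hn1 : 1 ≤ n := by
    obtain ⟨v0⟩ := hconn.nonempty
    have h1 := hL.dim v0
    have h2 := Submodule.finrank_le (L v0)
    rw [h1, Module.finrank_fintype_fun_eq_card, Fintype.card_fin] at h2
    omega
  obtain ⟨m, rfl⟩ : ∃ m, n = m + 1 := ⟨n - 1, by omega⟩
  rw [Nat.add_sub_cancel]
  exact betti_eq hL hG hQ hconn

end Final

end Pool.Agent.R862.GC
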