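import Pool.Agent.R862.GC.Theta

set_option autoImplicit false

namespace Pool.Agent.R862.GC

open SimpleGraph

theorem mem_seg {p q x : ℝ × ℝ} (h : x ∈ segment ℝ p q) : ∃ t : ℝ, 0 ≤ t ∧ t ≤ 1 ∧
    x.1 = (1 - t) * p.1 + t * q.1 ∧ x.2 = (1 - t) * p.2 + t * q.2 := by
  obtain ⟨a, b, ha, hb, hab, rfl⟩ := h
  refine ⟨b, hb, by linarith, ?_, ?_⟩
  · have : a = 1 - b := by linarith
    subst this
    simp
  · have : a = 1 - b := by linarith
    subst this
    simp

theorem edges_cases : ∀ a b : Fin 6, edgesB a b = true →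
    (a = 0 ∧ b = 1) ∨ (a = 1 ∧ b = 0) ∨ (a = 0 ∧ b = 2) ∨ (a = 2 ∧ b = 0) ∨ (a = 1 ∧ b = 2) ∨
    (a = 2 ∧ b = 1) ∨ (a = 0 ∧ b = 3) ∨ (a = 3 ∧ b = 0) ∨ (a = 3 ∧ b = 4) ∨ (a = 4 ∧ b = 3) ∨
    (a = 1 ∧ b = 4) ∨ (a = 4 ∧ b = 1) ∨ (a = 3 ∧ b = 5) ∨ (a = 5 ∧ b = 3) := by decide

/-- unordered version -/
theorem edges_cases' {P : Fin 6 → Fin 6 → Prop} (hs : ∀ a b, P a b → P b a)
    (h1 : P 0 1) (h2 : P 0 2) (h3 : P 1 2) (h4 : P 0 3) (h5 : P 3 4) (h6 : P 1 4) (h7 : P 3 5) :
    ∀ a b : Fin 6, thetaLeaf.Adj a b → P a b := by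
  intro a b h
  rcases edges_cases a b h with ⟨rfl, rfl⟩ | ⟨rfl, rfl⟩ | ⟨rfl, rfl⟩ | ⟨rfl, rfl⟩ | ⟨rfl, rfl⟩ |
    ⟨rfl, rfl⟩ | ⟨rfl, rfl⟩ | ⟨rfl, rfl⟩ | ⟨rfl, rfl⟩ | ⟨rfl, rfl⟩ | ⟨rfl, rfl⟩ | ⟨rfl, rfl⟩ |
    ⟨rfl, rfl⟩ | ⟨rfl, rfl⟩
  · exact h1
  · exact hs _ _ h1
  · exact h2
  · exact hs _ _ h2
  · exact h3
  · exact hs _ _ h3
  · exact h4
  · exact hs _ _ h4
  · exact h5
  · exact hs _ _ h5
  · exact h6
  · exact hs _ _ h6
  · exact h7
  · exact hs _ _ h7

theorem pos_inj : Function.Injective pos := by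
  intro a b h
  fin_cases a <;> fin_cases b <;> first | rfl | (exfalso; simp [pos] at h; try norm_num at h)

theorem pos_edge : ∀ u v w : Fin 6, thetaLeaf.Adj u v → w ≠ u → w ≠ v →
    pos w ∉ segment ℝ (pos u) (pos v) := by
  have key : ∀ u v : Fin 6, thetaLeaf.Adj u v → ∀ w, w ≠ u → w ≠ v →
      pos w ∉ segment ℝ (pos u) (pos v) := by
    apply edges_cases'
    · intro a b h w h1 h2
      rw [segment_symm]
      exact h w h2 h1
    all_goals
      intro w h1 h2 hm
      obtain ⟨t, ht0, ht1, hx, hy⟩ := mem_seg hm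
      fin_cases w <;> first
        | exact h1 rfl
        | exact h2 rfl
        | (simp [pos] at hx hy; try linarith)
  exact fun u v w h => key u v h w

theorem pos_disj : ∀ u v u' v' : Fin 6, thetaLeaf.Adj u v → thetaLeaf.Adj u' v' → u ≠ u' →
    u ≠ v' → v ≠ u' → v ≠ v' → Disjoint (segment ℝ (pos u) (pos v)) (segment ℝ (pos u') (pos v')) := by
  have key : ∀ u v : Fin 6, thetaLeaf.Adj u v → ∀ u' v' : Fin 6, thetaLeaf.Adj u' v' → u ≠ u' →
    u ≠ v' → v ≠ u' → v ≠ v' →
      Disjoint (segment ℝ (pos u) (pos v)) (segment ℝ (pos u') (pos v')) := by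
    apply edges_cases'
    · intro a b h u' v' h' h1 h2 h3 h4
      rw [segment_symm]
      exact h u' v' h' h3 h4 h1 h2
    all_goals
      apply edges_cases'
      · intro a b h h1 h2 h3 h4
        rw [segment_symm ℝ (pos b)]
        exact h h2 h1 h4 h3
      all_goals
        intro h1 h2 h3 h4
        first
          | exact absurd rfl h1
          | exact absurd rfl h2
          | exact absurd rfl h3
          | exact absurd rfl h4
          | (rw [Set.disjoint_left]
             intro x hx hx'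
             obtain ⟨t, ht0, ht1, hx1, hy1⟩ := mem_seg hx
             obtain ⟨s, hs0, hs1, hx2, hy2⟩ := mem_seg hx'
             rw [hx1] at hx2
             rw [hy1] at hy2
             simp [pos] at hx2 hy2
             try linarith)
  exact fun u v u' v' h h' => key u v h u' v' h'

theorem thetaLeaf_planar : IsPlanar thetaLeaf := ⟨pos, pos_inj, pos_edge, pos_disj⟩

/-- the list of edges -/
def edgeFin : Finset (Sym2 (Fin 6)) :=
  {s(0, 1), s(0, 2), s(1, 2), s(0, 3), s(3, 4), s(1, 4), s(3, 5)}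

theorem edgeSet_sub (e : Sym2 (Fin 6)) (he : e ∈ thetaLeaf.edgeSet) : e ∈ edgeFin := by
  induction e with
  | h a b =>
    rw [SimpleGraph.mem_edgeSet] at he
    revert a b
    apply edges_cases'
    · intro a b h
      rwa [Sym2.eq_swap]
    all_goals decide

theorem edgeSet_eq : thetaLeaf.edgeSet = (edgeFin : Set (Sym2 (Fin 6))) := by
  ext e
  constructor
  · exact edgeSet_sub e
  · intro h
    rw [Finset.mem_coe] at h
    simp only [edgeFin, Finset.mem_insert, Finset.mem_singleton] at h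
    rcases h with rfl | rfl | rfl | rfl | rfl | rfl | rfl <;>
      (rw [SimpleGraph.mem_edgeSet, adj_iff]; decide)

theorem edgeSet_ncard : thetaLeaf.edgeSet.ncard = 7 := by
  rw [edgeSet_eq, Set.ncard_coe_finset]
  decide

theorem genus_theta : genus thetaLeaf = 2 := by
  unfold genus
  rw [edgeSet_ncard, Nat.card_eq_fintype_card, Fintype.card_fin]
  norm_num

theorem sub_count : ∀ S : Finset (Fin 6), S.Nonempty →
    2 * (edgeFin.filter (fun e => ∀ a ∈ e, a ∈ S)).card + 3 ≤ 3 * S.card := by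
  decide +kernel

theorem theta_sub (H : thetaLeaf.Subgraph) (hH : H.Connected) :
    2 * subGenus H + 1 ≤ (H.verts.ncard : ℤ) := by
  classical
  set S : Finset (Fin 6) := Finset.univ.filter (fun v => v ∈ H.verts) with hS
  have hS' : (S : Set (Fin 6)) = H.verts := by
    ext v
    simp [hS]
  have hne : S.Nonempty := by
    obtain ⟨v, hv⟩ := hH.nonempty
    exact ⟨v, by simp [hS, hv]⟩
  have h1 : H.edgeSet ⊆ (edgeFin.filter (fun e => ∀ a ∈ e, a ∈ S) : Finset (Sym2 (Fin 6))) := by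
    intro e he
    rw [Finset.mem_coe, Finset.mem_filter]
    refine ⟨edgeSet_sub e (H.edgeSet_subset he), fun a ha => ?_⟩
    rw [hS, Finset.mem_filter]
    exact ⟨Finset.mem_univ _, H.mem_verts_of_mem_edge he ha⟩
  have h2 : H.edgeSet.ncard ≤ (edgeFin.filter (fun e => ∀ a ∈ e, a ∈ S)).card := by
    rw [← Set.ncard_coe_finset]
    exact Set.ncard_le_ncard h1 (Finset.finite_toSet _)
  have h3 := sub_count S hne
  have h4 : H.verts.ncard = S.card := by
    rw [← hS', Set.ncard_coe_finset]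
  unfold subGenus
  rw [h4]
  omega

theorem theta_cycle : ∃ (w : thetaLeaf.Walk 0 0), w.IsCycle ∧ w.length = 3 := by
  have h01 : thetaLeaf.Adj 0 1 := by rw [adj_iff]; decide
  have h12 : thetaLeaf.Adj 1 2 := by rw [adj_iff]; decide
  have h20 : thetaLeaf.Adj 2 0 := by rw [adj_iff]; decide
  refine ⟨SimpleGraph.Walk.cons h01 (SimpleGraph.Walk.cons h12 (SimpleGraph.Walk.cons h20
    SimpleGraph.Walk.nil)), ?_, rfl⟩
  rw [SimpleGraph.Walk.cons_isCycle_iff]
  simp

theorem theta_not_acyclic : ¬ thetaLeaf.IsAcyclic := by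
  intro h
  obtain ⟨w, hw, _⟩ := theta_cycle
  exact h w hw

theorem theta_girth : thetaLeaf.girth = 3 := by
  obtain ⟨w, hw, hl⟩ := theta_cycle
  have h1 : thetaLeaf.egirth ≤ 3 := by
    have := SimpleGraph.egirth_le_length hw
    rw [hl] at this
    exact_mod_cast this
  have h2 : thetaLeaf.egirth = 3 := le_antisymm h1 SimpleGraph.three_le_egirth
  unfold SimpleGraph.girth
  rw [h2]
  rfl

theorem theta_triangles : (cyclesOfLength thetaLeaf 3).ncard ≤ 1 := by
  rw [Set.ncard_le_one_iff_subset_singleton]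
  have htri : ∀ a b c : Fin 6, edgesB a b = true → edgesB b c = true → edgesB a c = true →
      ({a, b, c} : Finset (Fin 6)) = {0, 1, 2} := by decide +kernel
  have key : ∀ H ∈ cyclesOfLength thetaLeaf 3, H.verts = {0, 1, 2} ∧
      ∀ a b, a ≠ b → a ∈ H.verts → b ∈ H.verts → H.Adj a b := by
    rintro H ⟨φ⟩
    have hadj : ∀ x y : H.verts, x ≠ y → H.Adj x y := by
      intro x y hxy
      have : (SimpleGraph.cycleGraph 3).Adj (φ x) (φ y) := by
        have hne : φ x ≠ φ y := fun h => hxy (φ.injective h)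
        revert hne
        generalize φ x = a
        generalize φ y = b
        revert a b
        decide
      have h2 := φ.map_adj_iff.1 this
      simpa using h2
    refine ⟨?_, fun a b hab ha hb => hadj ⟨a, ha⟩ ⟨b, hb⟩ (fun h => hab (congrArg Subtype.val h))⟩
    have hf : ∀ x : H.verts, (x : Fin 6) = φ.symm 0 ∨ (x : Fin 6) = φ.symm 1 ∨
        (x : Fin 6) = φ.symm 2 := by
      intro x
      have : ∀ i : Fin 3, i = 0 ∨ i = 1 ∨ i = 2 := by decide
      rcases this (φ x) with h | h | h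
      · left; rw [← h]; simp
      · right; left; rw [← h]; simp
      · right; right; rw [← h]; simp
    have hset : H.verts = (({(φ.symm 0 : Fin 6), (φ.symm 1 : Fin 6), (φ.symm 2 : Fin 6)} :
        Finset (Fin 6)) : Set (Fin 6)) := by
      ext a
      constructor
      · intro ha
        have := hf ⟨a, ha⟩
        simpa using this
      · intro ha
        simp only [Finset.coe_insert, Finset.coe_singleton, Set.mem_insert_iff,
          Set.mem_singleton_iff] at ha
        rcases ha with rfl | rfl | rfl <;> exact Subtype.coe_prop _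
    rw [hset, htri]
    · simp
    · exact (hadj _ _ (fun h => absurd (φ.symm.injective h) (by decide))).adj_sub
    · exact (hadj _ _ (fun h => absurd (φ.symm.injective h) (by decide))).adj_sub
    · exact (hadj _ _ (fun h => absurd (φ.symm.injective h) (by decide))).adj_sub
  by_cases hne : (cyclesOfLength thetaLeaf 3).Nonempty
  · obtain ⟨H0, hH0⟩ := hne
    refine ⟨H0, fun H hH => ?_⟩
    rw [Set.mem_singleton_iff]
    obtain ⟨hv, ha⟩ := key H hH
    obtain ⟨hv0, ha0⟩ := key H0 hH0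
    apply SimpleGraph.Subgraph.ext
    · rw [hv, hv0]
    · funext a b
      apply propext
      constructor
      · intro h
        exact ha0 a b h.adj_sub.ne (by rw [hv0, ← hv]; exact h.fst_mem)
          (by rw [hv0, ← hv]; exact h.snd_mem)
      · intro h
        exact ha a b h.adj_sub.ne (by rw [hv, ← hv0]; exact h.fst_mem)
          (by rw [hv, ← hv0]; exact h.snd_mem)
  · refine ⟨⊥, fun H hH => ?_⟩
    exact absurd ⟨H, hH⟩ hne

end Pool.Agent.R862.GC
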